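import Pool.Agent.N276.ER.Path
import Pool.Agent.N276.BE.PathUp
import Pool.Agent.N276.BE.PathLow

/-!
# Paths and crossings
-/

set_option autoImplicit false

open Finset Filter

namespace Pool.Agent.U430.ER

open Pool.Agent.N276.ER
open Pool.Agent.N276.BE (W Yl)

theorem step_pm (ω : ℤ → ℕ → Bool) (t : ℕ) : X ω (t + 1) = X ω t + 1 ∨ X ω (t + 1) = X ω t - 1 := by
  rw [X_succ]
  split_ifs
  · left; rfl
  · right; rfl

/-- the last visit to `y` was followed by a step to the left, if the walk is below `y` -/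
theorem last_left (ω : ℤ → ℕ → Bool) (y : ℤ) (m : ℕ) (hm : X ω m < y) (hv : 1 ≤ vis ω y m) :
    ω y (vis ω y m - 1) = false := by
  induction m with
  | zero => simp [vis] at hv
  | succ m ih =>
    have hX := X_succ ω m
    rw [vis_succ] at hv ⊢
    by_cases h : X ω m = y
    · rw [if_pos h] at hv ⊢
      rw [Nat.add_sub_cancel]
      by_contra hb
      rw [h, if_pos (by simpa using hb)] at hX
      omega
    · rw [if_neg h, add_zero] at hv ⊢
      refine ih ?_ hv
      split_ifs at hX <;> omega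

theorem U_zero (s : ℕ → Bool) : U 0 s = 0 := Pool.Agent.N276.BE.PathUpAux.U_zero s

/-- the steps to the right from `y` are the successes before the last step to the left -/
theorem ups_eq (ω : ℤ → ℕ → Bool) (y : ℤ) (t : ℕ) (h : X ω t < y) :
    ups ω y t = U (downs ω y t) (ω y) := by
  have h3 := vis_eq ω y t
  have h4 := downs_eq ω y t
  rcases Nat.eq_zero_or_pos (vis ω y t) with hv | hv
  · have hd : downs ω y t = 0 := by omega
    rw [hd, U_zero]
    omega
  · have hl := last_left ω y t h hv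
    have hd : 1 ≤ downs ω y t := by
      have h5 := fails_succ (ω y) (vis ω y t - 1)
      rw [if_pos hl, Nat.sub_add_cancel hv] at h5
      omega
    rw [Pool.Agent.N276.BE.PathLowAux.U_eq (ω y) (vis ω y t) (downs ω y t) hd h4.symm hl]
    omega

theorem right : StmRight := by
  intro ω _ m hm t₀ h0 hlt hZ
  by_contra hcon
  push Not at hcon
  obtain ⟨t, ht1, ht2, hmin⟩ : ∃ t, t₀ ≤ t ∧ X ω t < m ∧
      ∀ s, t₀ ≤ s → s < t → (m : ℤ) ≤ X ω s := by
    classical
    obtain ⟨ht1, ht2⟩ := Nat.find_spec hcon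
    refine ⟨Nat.find hcon, ht1, ht2, fun s hs1 hs2 => ?_⟩
    have := Nat.find_min hcon hs2
    push Not at this
    exact this hs1
  have htne : t ≠ t₀ := by
    intro h
    rw [h, h0] at ht2
    omega
  obtain ⟨t', rfl⟩ : ∃ t', t = t' + 1 := Nat.exists_eq_succ_of_ne_zero (by omega)
  have hX' := hmin t' (by omega) (by omega)
  have hstep := step_pm ω t'
  have hXt' : X ω t' = m := by rcases hstep with h | h <;> omega
  have hXt : X ω (t' + 1) = m - 1 := by rcases hstep with h | h <;> omega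
  -- one step to the left from `m`
  have hd0 : ∀ n, t₀ ≤ n → n < t' + 1 → downs ω m n = 0 := by
    intro n hn
    induction n, hn using Nat.le_induction with
    | base =>
      intro _
      have hv : vis ω m t₀ = 0 := by
        unfold vis
        rw [card_eq_zero, filter_eq_empty_iff]
        intro k hk
        have := hlt k (mem_range.1 hk)
        omega
      have := vis_eq ω m t₀
      omega
    | succ n hn ih =>
      intro hn2
      rw [downs_succ, ih (by omega), if_neg]
      rintro ⟨-, h⟩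
      have := hmin (n + 1) (by omega) hn2
      omega
  have hdm : downs ω m (t' + 1) = 1 := by
    rw [downs_succ, hd0 t' (by omega) (by omega), if_pos ⟨hXt', hXt⟩]
  have hk : ∀ k : ℕ, downs ω ((m : ℤ) + k) (t' + 1) = Z (fun k => ω ((m : ℤ) + k)) k := by
    intro k
    induction k with
    | zero => simpa [Z] using hdm
    | succ k ih =>
      have hc := cross ω ((m : ℤ) + k) (t' + 1)
      rw [if_neg (by omega), if_neg (by omega), add_zero, add_zero] at hc
      have hu := ups_eq ω ((m : ℤ) + k) (t' + 1) (by omega)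
      show _ = U (Z (fun k => ω ((m : ℤ) + k)) k) (ω ((m : ℤ) + k))
      rw [← ih, ← hu]
      have e : (m : ℤ) + ((k + 1 : ℕ) : ℤ) = (m : ℤ) + k + 1 := by push_cast; ring
      rw [e]
      exact_mod_cast hc.symm
  -- far away there are no visits
  have hfar : ∀ n : ℕ, X ω n ≤ n := by
    intro n
    induction n with
    | zero => rw [X_zero]; simp
    | succ n ih =>
      rcases step_pm ω n with h | h <;> · push_cast; omega
  have h1 := hZ (t' + 2)
  rw [← hk (t' + 2)] at h1
  have hv : vis ω ((m : ℤ) + ((t' + 2 : ℕ) : ℤ)) (t' + 1) = 0 := by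
    unfold vis
    rw [card_eq_zero, filter_eq_empty_iff]
    intro k hk'
    have h3 := mem_range.1 hk'
    have h4 := hfar k
    push_cast
    omega
  have := vis_eq ω ((m : ℤ) + ((t' + 2 : ℕ) : ℤ)) (t' + 1)
  omega

theorem left : StmLeft := by
  intro ω hG hT
  have hω : ∀ y : ℤ, ∀ m, ∃ n, m ≤ fails (neg (ω y)) n := by
    intro y m
    induction m with
    | zero => exact ⟨0, Nat.zero_le _⟩
    | succ m ih =>
      obtain ⟨n, hn⟩ := ih
      obtain ⟨i, hi, hi2⟩ := (hG y).1 n
      refine ⟨i + 1, ?_⟩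
      rw [fails_succ, if_pos (by unfold neg; rw [hi2]; rfl)]
      have := Pool.Agent.N276.BE.PathUpAux.fails_mono (neg (ω y)) hi
      omega
  obtain ⟨N₀, hN₀⟩ := eventually_atTop.1 (tendsto_atBot.1 hT (-1))
  have hd0 : ∀ n, N₀ ≤ n → downs ω 0 n = downs ω 0 N₀ := by
    intro n hn
    induction n, hn using Nat.le_induction with
    | base => rfl
    | succ n hn ih =>
      rw [downs_succ, ih, if_neg, add_zero]
      rintro ⟨h, -⟩
      have := hN₀ n hn
      omega
  refine ⟨downs ω 0 N₀, fun k => ?_⟩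
  obtain ⟨N₁, hN₁⟩ := eventually_atTop.1 (tendsto_atBot.1 hT (-((k : ℤ) + 2)))
  obtain ⟨n, hn⟩ : ∃ n, n = max N₀ N₁ := ⟨_, rfl⟩
  have hXn : X ω n ≤ -((k : ℤ) + 2) := hN₁ n (by rw [hn]; exact le_max_right _ _)
  have hle : ∀ j : ℕ, j ≤ k → downs ω (-(j : ℤ)) n ≤ Y (downs ω 0 N₀)
      (fun k => ω (-((k : ℤ) + 1))) j := by
    intro j
    induction j with
    | zero =>
      intro _
      have := hd0 n (by rw [hn]; exact le_max_left _ _)
      simp [Y, this]
    | succ j ih =>
      intro hj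
      have h1 := ih (by omega)
      have hc := cross ω (-((j : ℤ) + 1)) n
      rw [if_pos (by omega), if_neg (by omega), add_zero] at hc
      have e : (-((j : ℤ) + 1)) + 1 = -(j : ℤ) := by ring
      rw [e] at hc
      have h2 : ups ω (-((j : ℤ) + 1)) n < Y (downs ω 0 N₀) (fun k => ω (-((k : ℤ) + 1))) j := by
        omega
      have h3 := vis_eq ω (-((j : ℤ) + 1)) n
      have h4 := downs_eq ω (-((j : ℤ) + 1)) n
      have h5 := Pool.Agent.N276.BE.PathUpAux.fails_neg (ω (-((j : ℤ) + 1)))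
        (vis ω (-((j : ℤ) + 1)) n)
      have h6 := Pool.Agent.N276.BE.PathUpAux.key (neg (ω (-((j : ℤ) + 1))))
        (Y (downs ω 0 N₀) (fun k => ω (-((k : ℤ) + 1))) j) (vis ω (-((j : ℤ) + 1)) n)
        (hω _ _) (by omega)
      show _ ≤ U (Y (downs ω 0 N₀) (fun k => ω (-((k : ℤ) + 1))) j) (neg (ω (-((j : ℤ) + 1))))
      have e2 : (-((j + 1 : ℕ) : ℤ)) = -((j : ℤ) + 1) := by push_cast; ring
      rw [e2]
      omega
  have h1 := hle k le_rfl
  have hc := cross ω (-((k : ℤ) + 1)) n
  rw [if_pos (by omega), if_neg (by omega), add_zero] at hc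
  have e : (-((k : ℤ) + 1)) + 1 = -(k : ℤ) := by ring
  rw [e] at hc
  omega

theorem vis_mono (ω : ℤ → ℕ → Bool) (y : ℤ) {m n : ℕ} (h : m ≤ n) : vis ω y m ≤ vis ω y n := by
  unfold vis
  exact card_le_card (filter_subset_filter _ (range_subset_range.2 h))

theorem io_up (ω : ℤ → ℕ → Bool) (hG : ∀ y, Good (ω y)) (y : ℤ)
    (h : ∀ N, ∃ n, N ≤ n ∧ X ω n = y) : ∀ N, ∃ n, N ≤ n ∧ X ω n = y + 1 := by
  intro N
  obtain ⟨i, hi, hi2⟩ := (hG y).1 (vis ω y N)
  have hunb : ∀ j, ∃ n, j < vis ω y n := by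
    intro j
    induction j with
    | zero =>
      obtain ⟨n, -, hn⟩ := h 0
      refine ⟨n + 1, ?_⟩
      rw [vis_succ, if_pos hn]
      omega
    | succ j ih =>
      obtain ⟨n, hn⟩ := ih
      obtain ⟨n', h1, h2⟩ := h n
      refine ⟨n' + 1, ?_⟩
      rw [vis_succ, if_pos h2]
      have := vis_mono ω y h1
      omega
  classical
  have hex := hunb i
  set n := Nat.find hex with hn
  have h1 := Nat.find_spec hex
  rw [← hn] at h1
  have hne : n ≠ 0 := by
    intro h0
    rw [h0] at h1
    simp [vis] at h1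
  obtain ⟨n', hn'⟩ := Nat.exists_eq_succ_of_ne_zero hne
  have h2 : ¬ i < vis ω y n' := Nat.find_min hex (by rw [← hn, hn']; exact Nat.lt_succ_self _)
  rw [hn'] at h1
  rw [Nat.succ_eq_add_one, vis_succ] at h1
  have hX : X ω n' = y := by
    by_contra hc
    rw [if_neg hc] at h1
    omega
  rw [if_pos hX] at h1
  have hv : vis ω y n' = i := by omega
  refine ⟨n' + 1, ?_, ?_⟩
  · by_contra hc
    push Not at hc
    have := vis_mono ω y (m := n' + 1) (n := N) (by omega)
    rw [vis_succ, if_pos hX] at this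
    omega
  · rw [X_succ, hX, hv, hi2]
    simp

theorem sup : StmSup := by
  intro ω hG hT m
  by_contra hcon
  push Not at hcon
  have hlt : ∀ n, X ω n < m := by
    intro n
    induction n with
    | zero =>
      have := hcon 0
      rw [X_zero] at this ⊢
      omega
    | succ n ih =>
      have := hcon (n + 1)
      rcases step_pm ω n with h | h <;> omega
  rw [tendsto_atBot] at hT
  push Not at hT
  obtain ⟨b, hb⟩ := hT
  have hb' : ∃ᶠ n in atTop, b < X ω n := by
    refine hb.mono fun n hn => ?_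
    simpa using hn
  -- some site is visited infinitely often
  have hio : ∃ y : ℤ, y < m ∧ ∀ N, ∃ n, N ≤ n ∧ X ω n = y := by
    by_contra hno
    push Not at hno
    have h1 : ∀ y ∈ Finset.Ioo b (m : ℤ), ∀ᶠ n in atTop, X ω n ≠ y := by
      intro y hy
      obtain ⟨N, hN⟩ := hno y (Finset.mem_Ioo.1 hy).2
      exact eventually_atTop.2 ⟨N, hN⟩
    have h2 : ∀ᶠ n in atTop, ∀ y ∈ Finset.Ioo b (m : ℤ), X ω n ≠ y :=
      (Filter.eventually_all_finset (Finset.Ioo b (m : ℤ))).2 h1
    obtain ⟨n, hn1, hn2⟩ := (hb'.and_eventually h2).exists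
    exact hn2 (X ω n) (Finset.mem_Ioo.2 ⟨hn1, hlt n⟩) rfl
  obtain ⟨y, hy, hyio⟩ := hio
  have hall : ∀ k : ℕ, ∀ N, ∃ n, N ≤ n ∧ X ω n = y + k := by
    intro k
    induction k with
    | zero => simpa using hyio
    | succ k ih =>
      have := io_up ω hG _ ih
      intro N
      obtain ⟨n, h1, h2⟩ := this N
      exact ⟨n, h1, by rw [h2]; push_cast; ring⟩
  obtain ⟨n, -, hn⟩ := hall ((m : ℤ) - y).toNat 0
  refine hcon n ?_
  rw [hn, Int.toNat_of_nonneg (by omega)]
  ring

end Pool.Agent.U430.ER
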