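import Pool.Agent.N276.ER.Stm
import Pool.Agent.N276.BE.QTail

/-!
# The environment: elementary facts, arrows of both kinds
-/

set_option autoImplicit false

open MeasureTheory ProbabilityTheory Filter Topology Set
open scoped ENNReal

namespace Pool.Agent.U430.ER

open Pool.Agent.N276.ER

theorem log_102 : 4 ≤ Real.log 102 := by
  rw [Real.le_log_iff_exp_le (by norm_num)]
  have h1 : Real.exp 4 = Real.exp 1 ^ 4 := by
    rw [← Real.exp_nat_mul]
    norm_num
  rw [h1]
  have h2 := Real.exp_one_lt_d9
  have h3 : Real.exp 1 ^ 4 ≤ (2.7182818286 : ℝ) ^ 4 :=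
    pow_le_pow_left₀ (Real.exp_pos 1).le h2.le 4
  exact h3.trans (by norm_num)

theorem log_ge (n : ℕ) (h : 100 ≤ n) : Real.log 102 ≤ Real.log (n + 2) := by
  refine Real.log_le_log (by norm_num) ?_
  have : (100 : ℝ) ≤ n := by exact_mod_cast h
  linarith

theorem A_hi (n : ℕ) (h : 100 ≤ n) : A n = 1 / 2 + 2 / Real.log (n + 2) := by
  unfold A
  rw [if_neg (by omega)]

theorem A_lo (n : ℕ) (h : n ≤ 100) : A n = (n : ℝ) / 100 * (1 / 2 + 2 / Real.log 102) := by
  unfold A
  rcases Nat.lt_or_ge n 100 with h1 | h1
  · rw [if_pos h1]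
  · have : n = 100 := by omega
    subst this
    rw [if_neg (by omega)]
    norm_num

theorem c_le : 1 / 2 + 2 / Real.log 102 ≤ 1 := by
  have h := log_102
  have : 2 / Real.log 102 ≤ 1 / 2 := by
    rw [div_le_div_iff₀ (by linarith) (by norm_num)]
    linarith
  linarith

theorem c_nonneg : 0 ≤ 1 / 2 + 2 / Real.log 102 := by
  have h := log_102
  positivity

theorem A_anti {m n : ℕ} (h : 100 ≤ m) (hmn : m ≤ n) : A n ≤ A m := by
  rw [A_hi n (by omega), A_hi m h]
  have h1 := log_102
  have h2 := log_ge m h
  have h3 : Real.log (m + 2) ≤ Real.log (n + 2) := by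
    refine Real.log_le_log (by positivity) ?_
    have : (m : ℝ) ≤ n := by exact_mod_cast hmn
    linarith
  have : 2 / Real.log (n + 2) ≤ 2 / Real.log (m + 2) :=
    div_le_div_of_nonneg_left (by norm_num) (by linarith) h3
  linarith

theorem A_step_hi (n : ℕ) (h : 100 ≤ n) : A n - A (n + 1) ≤ 1 / 100 := by
  rw [A_hi n h, A_hi (n + 1) (by omega)]
  have h1 := log_102
  have h2 := log_ge n h
  have h3 := log_ge (n + 1) (by omega)
  push_cast at h3 ⊢
  have hn : (100 : ℝ) ≤ n := by exact_mod_cast h
  have h4 : Real.log (n + 1 + 2) - Real.log (n + 2) ≤ 1 / (n + 2) := by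
    rw [← Real.log_div (by positivity) (by positivity)]
    have h5 : ((n : ℝ) + 1 + 2) / (n + 2) = 1 + 1 / (n + 2) := by
      field_simp
      ring
    rw [h5]
    have := Real.log_le_sub_one_of_pos (x := 1 + 1 / ((n : ℝ) + 2)) (by positivity)
    linarith
  have h6 : (1 : ℝ) / (n + 2) ≤ 1 / 100 := by
    apply div_le_div_of_nonneg_left <;> linarith
  have h7 : 2 / Real.log (n + 2) - 2 / Real.log (n + 1 + 2) =
      2 * (Real.log (n + 1 + 2) - Real.log (n + 2)) / (Real.log (n + 2) * Real.log (n + 1 + 2)) := by
    have a : Real.log ((n : ℝ) + 2) ≠ 0 := by linarith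
    have b : Real.log ((n : ℝ) + 1 + 2) ≠ 0 := by linarith
    field_simp
  have h8 : 2 * (Real.log (n + 1 + 2) - Real.log (n + 2)) /
      (Real.log (n + 2) * Real.log (n + 1 + 2)) ≤ 1 / 100 := by
    rw [div_le_iff₀ (by
      apply mul_pos <;> linarith)]
    have h9 : (4 : ℝ) * 4 ≤ Real.log (n + 2) * Real.log (n + 1 + 2) :=
      mul_le_mul (by linarith) (by linarith) (by norm_num) (by linarith)
    linarith
  linarith

theorem A_diff (n : ℕ) : |A (n + 1) - A n| ≤ 1 / 100 := by
  rcases Nat.lt_or_ge n 100 with h | h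
  · rw [A_lo n (by omega), A_lo (n + 1) (by omega)]
    push_cast
    have h1 := c_le
    have h2 := c_nonneg
    rw [show ((n : ℝ) + 1) / 100 * (1 / 2 + 2 / Real.log 102) -
      (n : ℝ) / 100 * (1 / 2 + 2 / Real.log 102) = (1 / 2 + 2 / Real.log 102) / 100 by ring]
    rw [abs_of_nonneg (by positivity)]
    linarith
  · rw [abs_le]
    have h1 := A_step_hi n h
    have h2 := A_anti h (Nat.le_succ n)
    constructor
    · linarith
    · linarith

theorem env : StmEnv := by
  have hA0 : A 0 = 0 := by
    rw [A_lo 0 (by omega)]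
    simp
  have hA01 : ∀ n, 0 ≤ A n ∧ A n ≤ 1 := by
    intro n
    have h1 := c_le
    have h2 := c_nonneg
    rcases Nat.lt_or_ge n 100 with h | h
    · rw [A_lo n (by omega)]
      have h3 : (n : ℝ) ≤ 100 := by exact_mod_cast h.le
      constructor
      · positivity
      · have h4 : (n : ℝ) / 100 ≤ 1 := by linarith
        nlinarith
    · refine ⟨?_, ?_⟩
      · rw [A_hi n h]
        have := log_ge n h
        have := log_102
        have h5 : 0 < Real.log (n + 2) := by linarith
        positivity
      · refine (A_anti le_rfl h).trans ?_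
        rw [A_lo 100 le_rfl]
        push_cast
        linarith
  refine ⟨hA0, hA01, A_diff, A_hi, ?_, ?_⟩
  · intro N
    have hlow : ∀ N, N ≤ 100 → ∑ i ∈ Finset.range N, |A (i + 1) - A i| = A N := by
      intro N
      induction N with
      | zero => intro _; simp [hA0]
      | succ N ih =>
        intro hN
        rw [Finset.sum_range_succ, ih (by omega), abs_of_nonneg]
        · ring
        · rw [A_lo N (by omega), A_lo (N + 1) (by omega)]
          push_cast
          have h2 := c_nonneg
          rw [show ((N : ℝ) + 1) / 100 * (1 / 2 + 2 / Real.log 102) -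
            (N : ℝ) / 100 * (1 / 2 + 2 / Real.log 102) = (1 / 2 + 2 / Real.log 102) / 100 by ring]
          positivity
    have hhigh : ∀ k, ∑ i ∈ Finset.range (100 + k), |A (i + 1) - A i| = 2 * A 100 - A (100 + k) := by
      intro k
      induction k with
      | zero =>
        rw [hlow 100 le_rfl]
        ring
      | succ k ih =>
        rw [← add_assoc, Finset.sum_range_succ, ih, abs_of_nonpos]
        · ring
        · have := A_anti (m := 100 + k) (n := 100 + k + 1) (by omega) (by omega)
          linarith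
    rcases Nat.lt_or_ge N 100 with h | h
    · rw [hlow N (by omega)]
      linarith [(hA01 N).2]
    · obtain ⟨k, rfl⟩ := Nat.exists_eq_add_of_le h
      rw [hhigh k, A_hi (100 + k) (by omega)]
      have h1 := (hA01 100).2
      have h2 : 0 < Real.log (((100 + k : ℕ) : ℝ) + 2) := by
        have := log_ge (100 + k) (by omega)
        have := log_102
        linarith
      have h3 : 0 ≤ 2 / Real.log (((100 + k : ℕ) : ℝ) + 2) := by positivity
      linarith
  · intro i
    have h := abs_le.1 (A_diff i)
    unfold pp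
    constructor <;> linarith

theorem prob : StmProb := by
  have h1 : ∀ p : ℕ → ℝ, (∀ i, 0 ≤ p i ∧ p i ≤ 1) → IsProbabilityMeasure (stackLaw p) :=
    fun p hp => Pool.Agent.N276.BE.QTailAux.prob_stack hp
  have h2 : IsProbabilityMeasure SS := h1 pp fun i => by
    have := env.2.2.2.2.2 i
    constructor <;> linarith [this.1, this.2]
  have := h2
  exact ⟨h1, h2, inferInstance, inferInstance⟩

end Pool.Agent.U430.ER
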