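import Pool.Agent.N276.ER.Stm

/-!
# Right transience depends only on the environment
-/

set_option autoImplicit false

open MeasureTheory ProbabilityTheory Filter Topology Set
open scoped ENNReal

namespace Pool.Agent.U430.ER

open Pool.Agent.N276.ER

universe u v

theorem cyl_law {p : ℕ → ℝ} {Ω : Type u} [MeasurableSpace Ω] {P : Measure Ω} {X : ℕ → Ω → ℤ}
    (h : IsERW p P X) (n : ℕ) (x : ℕ → ℤ) : P {ω | ∀ k ≤ n, X k ω = x k} =
      if x 0 = 0 then ∏ k ∈ Finset.range n, ENNReal.ofReal (stepProb p x k) else 0 := by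
  have := h.prob
  induction n with
  | zero =>
    rw [Finset.prod_range_zero]
    split_ifs with h0
    · have h1 : ∀ᵐ ω ∂P, ω ∈ {ω | ∀ k ≤ 0, X k ω = x k} := by
        filter_upwards [h.zero] with ω hω k hk
        obtain rfl : k = 0 := by omega
        rw [hω, h0]
      have h2 : {ω | ∀ k ≤ 0, X k ω = x k} =ᵐ[P] (Set.univ : Set Ω) := by
        rw [ae_eq_univ]
        exact h1
      rw [measure_congr h2, measure_univ]
    · have h1 : ∀ᵐ ω ∂P, ω ∉ {ω | ∀ k ≤ 0, X k ω = x k} := by
        filter_upwards [h.zero] with ω hω hk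
        exact h0 ((hk 0 le_rfl).symm.trans hω)
      exact measure_eq_zero_iff_ae_notMem.2 h1
  | succ n ih =>
    rw [h.step n x, ih, Finset.prod_range_succ]
    split_ifs
    · rfl
    · simp

theorem meas_set :
    MeasurableSet {y : ℕ → ℤ | Tendsto (fun n : ℕ => y n) atTop atTop} := by
  have h1 : {y : ℕ → ℤ | Tendsto (fun n : ℕ => y n) atTop atTop} =
      ⋂ b : ℕ, ⋃ N : ℕ, ⋂ n : ℕ, ⋂ (_ : N ≤ n), {y : ℕ → ℤ | (b : ℤ) ≤ y n} := by
    ext y
    simp only [Set.mem_ofPred_eq, Set.mem_iInter, Set.mem_iUnion, tendsto_atTop,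
      eventually_atTop]
    constructor
    · intro h b
      exact h b
    · intro h b
      obtain ⟨N, hN⟩ := h b.toNat
      exact ⟨N, fun n hn => (Int.self_le_toNat b).trans (hN n hn)⟩
  rw [h1]
  refine MeasurableSet.iInter fun b => MeasurableSet.iUnion fun N => MeasurableSet.iInter fun n =>
    MeasurableSet.iInter fun _ => ?_
  exact measurableSet_le measurable_const (measurable_pi_apply n)

theorem law_eq {p : ℕ → ℝ} {Ω : Type u} [MeasurableSpace Ω] {P : Measure Ω}
    {X : ℕ → Ω → ℤ} {Ω' : Type v} [MeasurableSpace Ω'] {P' : Measure Ω'} {X' : ℕ → Ω' → ℤ}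
    (h : IsERW p P X) (h' : IsERW p P' X') :
    P.map (fun ω k => X k ω) = P'.map (fun ω k => X' k ω) := by
  have := h.prob
  have := h'.prob
  have hm : Measurable (fun ω k => X k ω) := measurable_pi_iff.2 h.meas
  have hm' : Measurable (fun ω k => X' k ω) := measurable_pi_iff.2 h'.meas
  have hP : IsProbabilityMeasure (P.map (fun ω k => X k ω)) :=
    Measure.isProbabilityMeasure_map hm.aemeasurable
  have hP' : IsProbabilityMeasure (P'.map (fun ω k => X' k ω)) :=
    Measure.isProbabilityMeasure_map hm'.aemeasurable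
  set μ := P.map (fun ω k => X k ω) with hμ
  set μ' := P'.map (fun ω k => X' k ω) with hμ'
  have hfam : IsProjectiveMeasureFamily (α := fun _ : ℕ => ℤ)
      (fun I : Finset ℕ => μ.map (I.restrict (π := fun _ : ℕ => ℤ))) := by
    intro I J hJI
    rw [Measure.map_map (by fun_prop) (by fun_prop)]
    rfl
  have h1 : IsProjectiveLimit μ (fun I : Finset ℕ => μ.map (I.restrict (π := fun _ : ℕ => ℤ))) :=
    fun I => rfl
  have h2 : IsProjectiveLimit μ' (fun I : Finset ℕ => μ.map (I.restrict (π := fun _ : ℕ => ℤ))) := by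
    rw [isProjectiveLimit_nat_iff hfam]
    intro n
    refine Measure.ext_of_singleton fun z => ?_
    rw [Measure.map_apply (Preorder.measurable_frestrictLe n) (measurableSet_singleton z),
      Measure.map_apply (by fun_prop) (measurableSet_singleton z)]
    have hpre : MeasurableSet ((Preorder.frestrictLe (π := fun _ : ℕ => ℤ) n) ⁻¹' {z}) :=
      Preorder.measurable_frestrictLe n (measurableSet_singleton z)
    have e : ((Finset.Iic n).restrict (π := fun _ : ℕ => ℤ)) ⁻¹' {z} =
      (Preorder.frestrictLe (π := fun _ : ℕ => ℤ) n) ⁻¹' {z} := rfl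
    rw [e, hμ, hμ', Measure.map_apply hm' hpre, Measure.map_apply hm hpre]
    set x : ℕ → ℤ := fun k => if hk : k ≤ n then z ⟨k, Finset.mem_Iic.2 hk⟩ else 0 with hx
    have e1 : ∀ y : ℕ → ℤ, y ∈ (Preorder.frestrictLe (π := fun _ : ℕ => ℤ) n) ⁻¹' {z} ↔
        ∀ k ≤ n, y k = x k := by
      intro y
      constructor
      · intro hy k hk
        have hy' : Preorder.frestrictLe (π := fun _ : ℕ => ℤ) n y = z := hy
        rw [hx]
        simp only [hk, dite_true]
        rw [← hy']
        rfl
      · intro hy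
        show Preorder.frestrictLe (π := fun _ : ℕ => ℤ) n y = z
        funext ⟨k, hk⟩
        have hk' := Finset.mem_Iic.1 hk
        have := hy k hk'
        rw [hx] at this
        simp only [hk', dite_true] at this
        exact this
    have e2 : (fun ω k => X k ω) ⁻¹' ((Preorder.frestrictLe (π := fun _ : ℕ => ℤ) n) ⁻¹' {z}) =
        {ω | ∀ k ≤ n, X k ω = x k} := by
      ext ω
      exact e1 _
    have e3 : (fun ω k => X' k ω) ⁻¹' ((Preorder.frestrictLe (π := fun _ : ℕ => ℤ) n) ⁻¹' {z}) =
        {ω | ∀ k ≤ n, X' k ω = x k} := by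
      ext ω
      exact e1 _
    rw [e2, e3]
    exact (cyl_law h' n x).trans (cyl_law h n x).symm
  have hfin : ∀ I : Finset ℕ, IsFiniteMeasure (μ.map (I.restrict (π := fun _ : ℕ => ℤ))) :=
    fun I => inferInstance
  exact h1.unique h2

theorem transfer.{w} : StmTransfer.{w} := by
  intro p Ω _ P X Ω' _ P' X' h h' hT
  have hm : Measurable (fun ω k => X k ω) := measurable_pi_iff.2 h.meas
  have hm' : Measurable (fun ω k => X' k ω) := measurable_pi_iff.2 h'.meas
  have h1 : ∀ᵐ y ∂(P.map (fun ω k => X k ω)), Tendsto (fun n : ℕ => y n) atTop atTop :=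
    (ae_map_iff hm.aemeasurable meas_set).2 hT
  rw [law_eq h h'] at h1
  exact (ae_map_iff hm'.aemeasurable meas_set).1 h1

end Pool.Agent.U430.ER
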