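import Pool.Agent.U430.ER.Surv
import Pool.Agent.U430.ER.Cross
import Pool.Agent.U430.ER.Transfer

/-!
# The walk is transient to the right
-/

set_option autoImplicit false

open MeasureTheory ProbabilityTheory Filter Topology Set
open scoped ENNReal

namespace Pool.Agent.U430.ER

open Pool.Agent.N276.ER

/-- the chain started at site `m` survives -/
def Bm (m : ℕ) : Set (ℕ → ℕ → Bool) := {s | ∀ k, 1 ≤ Z (fun k => s (m + k)) k}

theorem B0_meas : MeasurableSet {s : ℕ → ℕ → Bool | ∀ k, 1 ≤ Z s k} := by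
  have hMeas := Pool.Agent.N276.ER.meas
  have h : {s : ℕ → ℕ → Bool | ∀ k, 1 ≤ Z s k} = ⋂ k, {s | 1 ≤ Z s k} := by
    ext s
    simp
  rw [h]
  exact MeasurableSet.iInter fun k => (hMeas.2.2.2.2.1 k) (t := {m | 1 ≤ m}) trivial

theorem Bm_prob (m : ℕ) : RR (Bm m) = RR {s | ∀ k, 1 ≤ Z s k} := by
  have := prob.2.1
  have hinj : Function.Injective fun k : ℕ => m + k := fun a b h => by simpa using h
  have h1 : Measure.map (fun (s : ℕ → ℕ → Bool) (k : ℕ) => s (m + k)) RR = RR :=
    Measure.map_infinitePi_infinitePi_of_inj (P := fun _ : ℕ => SS) hinj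
  have hm : Measurable fun (s : ℕ → ℕ → Bool) (k : ℕ) => s (m + k) :=
    measurable_pi_lambda _ fun k => measurable_pi_apply _
  conv_rhs => rw [← h1]
  rw [Measure.map_apply hm B0_meas]
  rfl

theorem io_RR : ∀ᵐ s ∂(RR), ∀ M : ℕ, ∃ m, M ≤ m ∧ s ∈ Bm m := by
  have hSS := prob.2.1
  have hRR := prob.2.2.2
  obtain ⟨t, ht⟩ : ∃ t : Set (ℕ → ℕ → Bool), t = ⋂ M : ℕ, ⋃ m : ℕ, ⋃ (_ : M ≤ m), Bm m := ⟨_, rfl⟩
  have hBN : ∀ N m : ℕ, N ≤ m → MeasurableSet[⨆ i : ℕ, ⨆ (_ : i ≥ N),
      (MeasurableSpace.comap (fun s : ℕ → ℕ → Bool => s i) inferInstance)] (Bm m) := by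
    intro N m hNm
    have h1 : Measurable[⨆ i : ℕ, ⨆ (_ : i ≥ N),
        (MeasurableSpace.comap (fun s : ℕ → ℕ → Bool => s i) inferInstance)]
        (fun (s : ℕ → ℕ → Bool) (k : ℕ) => s (m + k)) := by
      refine @measurable_pi_lambda _ _ _ (⨆ i : ℕ, ⨆ (_ : i ≥ N),
        (MeasurableSpace.comap (fun s : ℕ → ℕ → Bool => s i) inferInstance)) _ _ fun k => ?_
      have h2 : Measurable[MeasurableSpace.comap (fun s : ℕ → ℕ → Bool => s (m + k)) inferInstance]
        (fun s : ℕ → ℕ → Bool => s (m + k)) := comap_measurable _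
      refine h2.mono ?_ le_rfl
      exact le_iSup₂ (f := fun (i : ℕ) (_ : i ≥ N) =>
        MeasurableSpace.comap (fun s : ℕ → ℕ → Bool => s i) inferInstance) (m + k) (by omega)
    exact h1 B0_meas
  have hBm : ∀ m, MeasurableSet (Bm m) := by
    intro m
    have hm : Measurable fun (s : ℕ → ℕ → Bool) (k : ℕ) => s (m + k) :=
      measurable_pi_lambda _ fun k => measurable_pi_apply _
    exact hm B0_meas
  -- zero-one law
  have hind : iIndepFun (fun (i : ℕ) (s : ℕ → ℕ → Bool) => s i) RR :=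
    iIndepFun_infinitePi (P := fun _ : ℕ => SS) (X := fun _ (s : ℕ → Bool) => s)
      (fun _ => measurable_id)
  have h01 : RR t = 0 ∨ RR t = 1 := by
    refine measure_zero_or_one_of_measurableSet_limsup_atTop
      (s := fun i => MeasurableSpace.comap (fun s : ℕ → ℕ → Bool => s i) inferInstance)
      (fun i => (measurable_pi_apply i).comap_le) hind.iIndep ?_
    rw [Filter.limsup_eq_iInf_iSup_of_nat, MeasurableSpace.measurableSet_iInf]
    intro N
    have e : t = ⋂ M : ℕ, ⋃ m : ℕ, ⋃ (_ : M ≤ m ∧ N ≤ m), Bm m := by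
      rw [ht]
      ext s
      simp only [Set.mem_iInter, Set.mem_iUnion, exists_prop]
      constructor
      · intro h M
        obtain ⟨m, h1, h2⟩ := h (max M N)
        exact ⟨m, ⟨(le_max_left _ _).trans h1, (le_max_right _ _).trans h1⟩, h2⟩
      · intro h M
        obtain ⟨m, ⟨h1, -⟩, h2⟩ := h M
        exact ⟨m, h1, h2⟩
    rw [e]
    refine MeasurableSet.iInter fun M => MeasurableSet.iUnion fun m =>
      MeasurableSet.iUnion fun h => ?_
    exact hBN N m h.2
  have hpos : 0 < RR t := by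
    refine lt_of_lt_of_le surv ?_
    have hanti : Antitone fun M : ℕ => ⋃ m : ℕ, ⋃ (_ : M ≤ m), Bm m := by
      intro M M' h s hs
      simp only [Set.mem_iUnion, exists_prop] at hs ⊢
      obtain ⟨m, h1, h2⟩ := hs
      exact ⟨m, h.trans h1, h2⟩
    have hlim : Tendsto (fun M : ℕ => RR (⋃ m : ℕ, ⋃ (_ : M ≤ m), Bm m)) atTop (𝓝 (RR t)) := by
      rw [ht]
      refine tendsto_measure_iInter_atTop (fun M => ?_) hanti ⟨0, measure_ne_top _ _⟩
      exact (MeasurableSet.iUnion fun m => MeasurableSet.iUnion fun _ => hBm m).nullMeasurableSet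
    refine ge_of_tendsto' hlim fun M => ?_
    rw [← Bm_prob M]
    refine measure_mono ?_
    intro s hs
    simp only [Set.mem_iUnion, exists_prop]
    exact ⟨M, le_rfl, hs⟩
  have h1 : RR t = 1 := h01.resolve_left hpos.ne'
  have htm : MeasurableSet t := by
    rw [ht]
    exact MeasurableSet.iInter fun M => MeasurableSet.iUnion fun m =>
      MeasurableSet.iUnion fun _ => hBm m
  have h2 : ∀ᵐ s ∂(RR), s ∈ t := (mem_ae_iff_prob_eq_one htm).2 h1
  filter_upwards [h2] with s hs M
  rw [ht] at hs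
  have h3 := Set.mem_iInter.1 hs M
  simp only [Set.mem_iUnion, exists_prop] at h3
  exact h3

theorem io : StmIO := by
  have hinj : Function.Injective fun k : ℕ => (k : ℤ) := Nat.cast_injective
  have h1 := push _ hinj
  have h2 := io_RR
  rw [← h1] at h2
  have hm : Measurable fun (ω : ℤ → ℕ → Bool) (k : ℕ) => ω (k : ℤ) :=
    measurable_pi_lambda _ fun k => measurable_pi_apply _
  filter_upwards [ae_of_ae_map hm.aemeasurable h2] with ω hω M
  obtain ⟨m, h3, h4⟩ := hω M
  refine ⟨m, h3, fun k => ?_⟩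
  have h5 := h4 k
  have e : (fun k : ℕ => ω (((m + k : ℕ) : ℤ))) = fun k : ℕ => ω ((m : ℤ) + k) := by
    funext k
    push_cast
    rfl
  rw [← e]
  exact h5

/-- the walk driven by the arrows is transient to the right -/
theorem transient : ∀ᵐ ω ∂QQ, Tendsto (fun n => X ω n) atTop atTop := by
  filter_upwards [goodQ, dieQ, io] with ω hG hD hI
  have hnot : ¬ Tendsto (X ω) atTop atBot := by
    intro h
    obtain ⟨a, ha⟩ := left ω hG h
    obtain ⟨k, hk⟩ := hD a
    have := ha k
    omega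
  have hsup := sup ω hG hnot
  rw [tendsto_atTop]
  intro b
  obtain ⟨m, hm, hZ⟩ := hI (max 1 b.toNat)
  have hm1 : 1 ≤ m := (le_max_left _ _).trans hm
  have hmb : b ≤ m := by
    have : b.toNat ≤ m := (le_max_right _ _).trans hm
    omega
  classical
  have hex := hsup m
  have h1 := Nat.find_spec hex
  have hlt : ∀ t < Nat.find hex, X ω t < m := by
    intro t
    induction t with
    | zero => intro _; rw [X_zero]; omega
    | succ t ih =>
      intro h
      have h2 := ih (by omega)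
      have h3 := Nat.find_min hex h
      rcases step_pm ω t with h4 | h4 <;> omega
  have h2 := right ω hG m hm1 (Nat.find hex) h1 hlt hZ
  exact eventually_atTop.2 ⟨Nat.find hex, fun t ht => hmb.trans (h2 t ht)⟩

theorem erwX : IsERW pp QQ fun n ω => X ω n := law prob Pool.Agent.N276.ER.meas env

end Pool.Agent.U430.ER
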