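import Pool.Agent.U430.ER.Env
import Pool.Agent.N276.ER.Law

/-!
# Infinitely many arrows of both kinds
-/

set_option autoImplicit false

open MeasureTheory ProbabilityTheory Filter Topology Set
open scoped ENNReal

namespace Pool.Agent.U430.ER

open Pool.Agent.N276.ER

theorem meas_coord (i : ℕ) (b : Bool) : MeasurableSet {s : ℕ → Bool | s i = b} := by
  have h3 : {s : ℕ → Bool | s i = b} = (fun s : ℕ → Bool => s i) ⁻¹' {b} := rfl
  rw [h3]
  exact (measurable_pi_apply i) (measurableSet_singleton b)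

theorem bern_le {q : ℝ} (h : 49 / 100 ≤ q ∧ q ≤ 51 / 100) (b : Bool) :
    bern q {b} ≤ ENNReal.ofReal (51 / 100) := by
  cases b
  · rw [LawAux.bern_false]
    exact ENNReal.ofReal_le_ofReal (by linarith [h.1])
  · rw [LawAux.bern_true]
    exact ENNReal.ofReal_le_ofReal h.2

theorem const_zero {p : ℕ → ℝ} (hp : ∀ i, 49 / 100 ≤ p i ∧ p i ≤ 51 / 100) (n : ℕ) (b : Bool) :
    (stackLaw p) {s | ∀ i, n ≤ i → s i = b} = 0 := by
  have hb : ∀ i, IsProbabilityMeasure (bern (p i)) := fun i =>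
    LawAux.bern_prob (by linarith [(hp i).1]) (by linarith [(hp i).2])
  have h : ∀ k : ℕ, (stackLaw p) {s | ∀ i, n ≤ i → s i = b} ≤ ENNReal.ofReal (51 / 100) ^ k := by
    intro k
    have h1 : (stackLaw p) (Set.pi ((Finset.Ico n (n + k) : Finset ℕ) : Set ℕ)
        fun _ => ({b} : Set Bool)) = ∏ i ∈ Finset.Ico n (n + k), bern (p i) {b} :=
      Measure.infinitePi_pi (μ := fun i => bern (p i)) (s := Finset.Ico n (n + k))
        (t := fun _ => ({b} : Set Bool)) (fun i _ => measurableSet_singleton b)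
    have h2 : {s : ℕ → Bool | ∀ i, n ≤ i → s i = b} ⊆
        Set.pi ((Finset.Ico n (n + k) : Finset ℕ) : Set ℕ) (fun _ => ({b} : Set Bool)) := by
      intro s hs i hi
      exact hs i (Finset.mem_Ico.1 (Finset.mem_coe.1 hi)).1
    refine (measure_mono h2).trans ?_
    rw [h1]
    calc ∏ i ∈ Finset.Ico n (n + k), bern (p i) {b}
        ≤ ∏ _i ∈ Finset.Ico n (n + k), ENNReal.ofReal (51 / 100) :=
          Finset.prod_le_prod' fun i _ => bern_le (hp i) b
      _ = ENNReal.ofReal (51 / 100) ^ k := by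
          rw [Finset.prod_const, Nat.card_Ico, Nat.add_sub_cancel_left]
  have h3 : Tendsto (fun k : ℕ => ENNReal.ofReal (51 / 100) ^ k) atTop (𝓝 0) := by
    refine ENNReal.tendsto_pow_atTop_nhds_zero_of_lt_one ?_
    rw [← ENNReal.ofReal_one]
    exact (ENNReal.ofReal_lt_ofReal_iff (by norm_num)).2 (by norm_num)
  exact le_antisymm (ge_of_tendsto' h3 h) zero_le

theorem inf_law {p : ℕ → ℝ} (hp : ∀ i, 49 / 100 ≤ p i ∧ p i ≤ 51 / 100) :
    ∀ᵐ s ∂(stackLaw p), Good s := by
  have h : ∀ b : Bool, ∀ᵐ s ∂(stackLaw p), ∀ n, ∃ i, n ≤ i ∧ s i = b := by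
    intro b
    rw [ae_all_iff]
    intro n
    rw [ae_iff]
    refine measure_mono_null ?_ (const_zero hp n (!b))
    intro s hs i hi
    by_contra hc
    exact hs ⟨i, hi, by cases b <;> cases h : s i <;> simp_all⟩
  filter_upwards [h true, h false] with s h1 h2
  exact ⟨h1, h2⟩

theorem inf : StmInf := inf_law env.2.2.2.2.2

/-- almost surely all stacks are good -/
theorem goodQ : ∀ᵐ ω ∂QQ, ∀ y, Good (ω y) := by
  have := prob.2.1
  rw [ae_all_iff]
  intro y
  have h1 : Measure.map (fun ω : ℤ → ℕ → Bool => ω y) QQ = SS :=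
    Measure.infinitePi_map_eval (fun _ : ℤ => SS) y
  have h2 : ∀ᵐ s ∂(Measure.map (fun ω : ℤ → ℕ → Bool => ω y) QQ), Good s := by
    rw [h1]
    exact inf
  exact ae_of_ae_map (measurable_pi_apply y).aemeasurable h2

end Pool.Agent.U430.ER
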