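import Pool.Agent.U430.ER.Tail

/-!
# The limits `μ = 1`, `ρ → 1`, `ν → 2`
-/

set_option autoImplicit false

open MeasureTheory ProbabilityTheory Filter Topology Set
open scoped ENNReal

namespace Pool.Agent.U430.ER

open Pool.Agent.N276.ER

theorem le_T {s : ℕ → Bool} (hs : Good s) (x : ℕ) : x ≤ T x s := by
  have h1 := Mom2Aux.fails_T hs x
  have h0 := Mom2Aux.fails_le s (T x s)
  omega

theorem rho_eq (x : ℕ) : ∫ s, ((U x s : ℝ) - x) ∂SS = ∫ s, 2 * A (T x s) ∂SS := by
  rw [(wald' pp env.2.2.2.2.2 x).2.2]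
  congr 1
  funext s
  have h6 : ∑ i ∈ Finset.range (T x s), (2 * pp i - 1) = 2 * A (T x s) := by
    rw [Finset.sum_sub_distrib, ← Finset.mul_sum, sum_pp]
    simp
    ring
  exact h6

theorem intA (x : ℕ) : Integrable (fun s => 2 * A (T x s)) SS := by
  have := prob.2.1
  have hMeas := Pool.Agent.N276.ER.meas
  refine Integrable.of_bound (C := 2) ?_ ?_
  · exact ((measurable_of_countable (fun n : ℕ => 2 * A n)).comp (hMeas.1 x)).aestronglyMeasurable
  · refine Eventually.of_forall fun s => ?_
    have := env.2.1 (T x s)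
    rw [Real.norm_eq_abs, abs_le]
    constructor <;> linarith [this.1, this.2]

/-- bounds of `ρ` -/
theorem rho_bd (x : ℕ) (hx : 100 ≤ x) : 1 ≤ ∫ s, ((U x s : ℝ) - x) ∂SS ∧
    ∫ s, ((U x s : ℝ) - x) ∂SS ≤ 1 + 4 / Real.log (x + 2) := by
  have := prob.2.1
  rw [rho_eq]
  have hA : ∀ᵐ s ∂SS, 1 ≤ 2 * A (T x s) ∧ 2 * A (T x s) ≤ 1 + 4 / Real.log (x + 2) := by
    filter_upwards [inf] with s hs
    have h1 := le_T hs x
    have h2 := A_hi (T x s) (by omega)
    have h3 := A_anti (m := x) (n := T x s) hx h1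
    have h4 := A_hi x hx
    have h5 := log_ge (T x s) (by omega)
    have h6 := log_102
    constructor
    · rw [h2]
      have : 0 ≤ 2 / Real.log ((T x s : ℝ) + 2) := by
        apply div_nonneg (by norm_num)
        linarith
      linarith
    · calc 2 * A (T x s) ≤ 2 * A x := by linarith
        _ = 1 + 4 / Real.log (x + 2) := by
          rw [h4]
          ring
  constructor
  · calc (1 : ℝ) = ∫ _s, (1 : ℝ) ∂SS := by simp
      _ ≤ _ := integral_mono_ae (integrable_const _) (intA x) (by
        filter_upwards [hA] with s hs using hs.1)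
  · calc ∫ s, 2 * A (T x s) ∂SS ≤ ∫ _s, (1 + 4 / Real.log (x + 2)) ∂SS :=
        integral_mono_ae (intA x) (integrable_const _) (by
          filter_upwards [hA] with s hs using hs.2)
      _ = _ := by simp

theorem lim : StmLim := by
  have := prob.2.1
  have hl : Tendsto (fun x : ℕ => 4 / Real.log ((x : ℝ) + 2)) atTop (𝓝 0) := by
    refine Tendsto.div_atTop tendsto_const_nhds ?_
    exact Real.tendsto_log_atTop.comp
      (tendsto_atTop_add_const_right _ _ tendsto_natCast_atTop_atTop)
  have hrho : Tendsto (fun x : ℕ => ∫ s, ((U x s : ℝ) - x) ∂SS) atTop (𝓝 1) := by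
    refine tendsto_of_tendsto_of_tendsto_of_le_of_le' (g := fun _ : ℕ => (1 : ℝ))
      (h := fun x : ℕ => 1 + 4 / Real.log ((x : ℝ) + 2)) tendsto_const_nhds ?_ ?_ ?_
    · simpa using hl.const_add 1
    · filter_upwards [eventually_ge_atTop 100] with x hx using (rho_bd x hx).1
    · filter_upwards [eventually_ge_atTop 100] with x hx using (rho_bd x hx).2
  refine ⟨?_, hrho, ?_⟩
  · have h1 : Tendsto (fun x : ℕ => 1 + (∫ s, ((U x s : ℝ) - x) ∂SS) / x) atTop (𝓝 (1 + 0)) :=
      (hrho.div_atTop tendsto_natCast_atTop_atTop).const_add 1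
    rw [add_zero] at h1
    refine h1.congr' ?_
    filter_upwards [eventually_ge_atTop 1] with x hx
    have hx' : (x : ℝ) ≠ 0 := by
      have : (1 : ℝ) ≤ x := by exact_mod_cast hx
      positivity
    rw [integral_sub (wald' pp env.2.2.2.2.2 x).1 (integrable_const _), integral_const,
      probReal_univ, one_smul]
    field_simp
    ring
  · have h2 : Tendsto (fun x : ℕ => (20 * Real.sqrt x + 100) / x) atTop (𝓝 0) := by
      have h3 : Tendsto (fun x : ℕ => 20 / Real.sqrt x + 100 / x) atTop (𝓝 (0 + 0)) := by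
        refine Tendsto.add ?_ ?_
        · exact Tendsto.div_atTop tendsto_const_nhds
            (Real.tendsto_sqrt_atTop.comp tendsto_natCast_atTop_atTop)
        · exact Tendsto.div_atTop tendsto_const_nhds tendsto_natCast_atTop_atTop
      rw [add_zero] at h3
      refine h3.congr' ?_
      filter_upwards [eventually_ge_atTop 1] with x hx
      have hx' : (1 : ℝ) ≤ x := by exact_mod_cast hx
      have hs : 0 < Real.sqrt x := Real.sqrt_pos.2 (by linarith)
      have hss : Real.sqrt x * Real.sqrt x = x := Real.mul_self_sqrt (by linarith)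
      rw [add_div]
      congr 1
      rw [div_eq_div_iff hs.ne' (by linarith)]
      rw [mul_assoc, hss]
    rw [tendsto_iff_dist_tendsto_zero]
    refine squeeze_zero' (Eventually.of_forall fun _ => dist_nonneg) ?_ h2
    filter_upwards [eventually_ge_atTop 1] with x hx
    have hx' : (1 : ℝ) ≤ x := by exact_mod_cast hx
    have h3 := mom2' x
    rw [Real.dist_eq, div_sub' (by linarith), abs_div, abs_of_pos (by linarith : (0 : ℝ) < x)]
    refine div_le_div_of_nonneg_right ?_ (by linarith)
    rw [mul_comm]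
    exact h3

end Pool.Agent.U430.ER
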