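import Pool.Agent.U430.ER.Lyap
import Pool.Agent.U430.ER.Lim

/-!
# The Lyapunov function for the chain `Z`
-/

set_option autoImplicit false

open MeasureTheory ProbabilityTheory Filter Topology Set
open scoped ENNReal

namespace Pool.Agent.U430.ER

open Pool.Agent.N276.ER

/-- lower bound of the mean -/
theorem mean_lower (x : ℕ) (hx : 200 ≤ x) (hx2 : 5 ≤ Real.log x) :
    1 + 3 / Real.log x ≤ ∫ s, ((U x s : ℝ) - x) ∂SS := by
  have := prob.2.1
  have hMeas := Pool.Agent.N276.ER.meas
  have hx0 : (200 : ℝ) ≤ x := by exact_mod_cast hx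
  rw [rho_eq]
  -- the bad event
  have htl := tail x x (by omega)
  obtain ⟨E, hE⟩ : ∃ E : Set (ℕ → Bool), E = {s | (x : ℝ) ≤ |(U x s : ℝ) - x|} := ⟨_, rfl⟩
  rw [← hE] at htl
  have hEm : MeasurableSet E := by
    rw [hE]
    have hU : Measurable fun s => (U x s : ℝ) :=
      (measurable_of_countable (fun n : ℕ => (n : ℝ))).comp (hMeas.2.1 x)
    exact measurableSet_le measurable_const
      (_root_.continuous_abs.measurable.comp (hU.sub measurable_const))
  have hP : SS.real E ≤ 1 / 100 := by
    refine htl.trans ?_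
    have e1 : -(x : ℝ) ^ 2 / (8 * (2 * x + x)) = -(x / 24) := by
      field_simp
      ring
    rw [e1]
    have h1 : Real.exp (-((x : ℝ) / 24)) ≤ 1 / 200 := by
      rw [Real.exp_neg, ← one_div]
      apply one_div_le_one_div_of_le (by norm_num)
      have h2 : (200 : ℝ) ≤ Real.exp 8 := by
        have h3 : (2.7 : ℝ) ≤ Real.exp 1 := by linarith [Real.exp_one_gt_d9]
        have h4 : Real.exp 8 = Real.exp 1 ^ 8 := by
          rw [← Real.exp_nat_mul]
          norm_num
        rw [h4]
        calc (200 : ℝ) ≤ 2.7 ^ 8 := by norm_num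
          _ ≤ Real.exp 1 ^ 8 := pow_le_pow_left₀ (by norm_num) h3 8
      refine h2.trans (Real.exp_le_exp.2 ?_)
      linarith
    linarith
  -- the lower bound on the complement
  obtain ⟨c, hc⟩ : ∃ c, c = 4 / Real.log (3 * x + 2) := ⟨_, rfl⟩
  have hlog3 : Real.log (3 * x + 2) ≤ Real.log x + 7 / 5 := by
    have h1 : Real.log (3 * x + 2) ≤ Real.log (4 * x) :=
      Real.log_le_log (by linarith) (by linarith)
    have h2 : Real.log (4 * x) = Real.log 4 + Real.log x :=
      Real.log_mul (by norm_num) (by linarith)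
    have h3 : Real.log 4 ≤ 7 / 5 := by
      have h4 : Real.log 4 = 2 * Real.log 2 := by
        rw [show (4 : ℝ) = 2 ^ 2 by norm_num, Real.log_pow]
        norm_num
      have := Real.log_two_lt_d9
      linarith
    linarith
  have hlog3p : 5 ≤ Real.log (3 * x + 2) :=
    hx2.trans (Real.log_le_log (by linarith) (by linarith))
  have hc0 : 0 ≤ c := by rw [hc]; apply div_nonneg (by norm_num); linarith
  have hpt : ∀ᵐ s ∂SS, 1 + c - c * E.indicator (fun _ => (1 : ℝ)) s ≤ 2 * A (T x s) := by
    filter_upwards [inf] with s hs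
    have h1 := le_T hs x
    have h2 := A_hi (T x s) (by omega)
    have h5 := log_ge (T x s) (by omega)
    have h6 := log_102
    have hAe : 2 * A (T x s) = 1 + 4 / Real.log ((T x s : ℝ) + 2) := by rw [h2]; ring
    by_cases h : s ∈ E
    · rw [Set.indicator_of_mem h, hAe]
      have : 0 ≤ 4 / Real.log ((T x s : ℝ) + 2) := div_nonneg (by norm_num) (by linarith)
      linarith
    · rw [Set.indicator_of_notMem h, hAe]
      have h7 : |(U x s : ℝ) - x| < x := by
        rw [hE] at h
        simpa using h
      have h8 := Mom2Aux.U_eq hs x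
      have h9 := (abs_lt.1 h7).2
      have h10 : (T x s : ℝ) + 2 ≤ 3 * x + 2 := by linarith
      have h11 : Real.log ((T x s : ℝ) + 2) ≤ Real.log (3 * x + 2) :=
        Real.log_le_log (by positivity) h10
      have h12 : c ≤ 4 / Real.log ((T x s : ℝ) + 2) := by
        rw [hc]
        exact div_le_div_of_nonneg_left (by norm_num) (by linarith) h11
      linarith
  have hIi : Integrable (fun s => E.indicator (fun _ => (1 : ℝ)) s) SS :=
    (integrable_const (1 : ℝ)).indicator hEm
  have hle : ∫ s, (1 + c - c * E.indicator (fun _ => (1 : ℝ)) s) ∂SS ≤ ∫ s, 2 * A (T x s) ∂SS :=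
    integral_mono_ae ((integrable_const _).sub (hIi.const_mul c)) (intA x) hpt
  rw [integral_sub (integrable_const _) (hIi.const_mul c), integral_const, probReal_univ, one_smul,
    integral_const_mul, integral_indicator hEm, integral_const, smul_eq_mul, mul_one,
    measureReal_restrict_apply MeasurableSet.univ, Set.univ_inter] at hle
  refine le_trans ?_ hle
  have h1 : c * SS.real E ≤ c * (1 / 100) := mul_le_mul_of_nonneg_left hP hc0
  have h2 : 3 / Real.log x ≤ 99 / 100 * c := by
    rw [hc, div_le_iff₀ (by linarith)]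
    have h3 : 99 / 100 * (4 / Real.log (3 * x + 2)) * Real.log x =
        (396 / 100 * Real.log x) / Real.log (3 * x + 2) := by ring
    rw [h3, le_div_iff₀ (by linarith)]
    linarith
  linarith

theorem kern : StmKern := by
  have := prob.2.1
  have hMeas := Pool.Agent.N276.ER.meas
  obtain ⟨x₁, hx₁⟩ := lyap
  have hl : Tendsto (fun x : ℕ => Real.log (x : ℝ)) atTop atTop :=
    Real.tendsto_log_atTop.comp tendsto_natCast_atTop_atTop
  obtain ⟨x₂, hx₂⟩ := eventually_atTop.1 (hl.eventually (eventually_ge_atTop 5))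
  refine ⟨max x₁ (max x₂ 200), fun x hx => ?_⟩
  have a1 : x₁ ≤ x := (le_max_left _ _).trans hx
  have a2 : x₂ ≤ x := ((le_max_left _ _).trans (le_max_right _ _)).trans hx
  have a3 : 200 ≤ x := ((le_max_right _ _).trans (le_max_right _ _)).trans hx
  have hU : Measurable fun s => (U x s : ℝ) :=
    (measurable_of_countable (fun n : ℕ => (n : ℝ))).comp (hMeas.2.1 x)
  obtain ⟨w1, w2, -⟩ := wald' pp env.2.2.2.2.2 x
  have hD2 : Integrable (fun s => ((U x s : ℝ) - x) ^ 2) SS := by
    have h1 : (fun s => ((U x s : ℝ) - x) ^ 2) =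
        fun s => (U x s : ℝ) ^ 2 + ((-(2 * x)) * (U x s : ℝ) + (x : ℝ) ^ 2) := by
      funext s
      ring
    rw [h1]
    exact w2.add ((w1.const_mul (-(2 * (x : ℝ)))).add (integrable_const _))
  have h := hx₁ x a1 SS (fun s => (U x s : ℝ) - x) this (hU.sub measurable_const)
    (fun s => by
      have : (0 : ℝ) ≤ U x s := Nat.cast_nonneg _
      linarith) hD2 (mean_lower x a3 (hx₂ x a2)) (by
      have h1 := (abs_le.1 (mom2' x)).2
      linarith) (fun t ht => tail x t ht)
  have e1 : ∀ s, 1 / Real.log ((x : ℝ) + ((U x s : ℝ) - x) + 3) = V (U x s) := by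
    intro s
    unfold V
    congr 2
    ring
  simp only [e1] at h
  exact h

end Pool.Agent.U430.ER
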