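import Pool.Agent.U430.ER.Tail

/-!
# The mean of the chain to the left
-/

set_option autoImplicit false

open MeasureTheory ProbabilityTheory Filter Topology Set
open scoped ENNReal

namespace Pool.Agent.U430.ER

open Pool.Agent.N276.ER

theorem bern_map {q : ℝ} : (bern q).map (fun b : Bool => !b) = bern (1 - q) := by
  unfold bern
  rw [Measure.map_add _ _ (measurable_of_finite _), Measure.map_smul, Measure.map_smul,
    Measure.map_dirac, Measure.map_dirac]
  simp only [Bool.not_true, Bool.not_false, sub_sub_cancel]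
  rw [add_comm]

theorem map_neg {p : ℕ → ℝ} (hp : ∀ i, 0 ≤ p i ∧ p i ≤ 1) :
    (stackLaw p).map neg = stackLaw (fun i => 1 - p i) := by
  have hb : ∀ i, IsProbabilityMeasure (bern (p i)) := fun i =>
    LawAux.bern_prob (hp i).1 (hp i).2
  have h := Measure.infinitePi_map_pi (μ := fun i => bern (p i))
    (f := fun (_ : ℕ) (b : Bool) => !b) (fun _ => measurable_of_finite _)
  unfold stackLaw
  have h2 : neg = fun (s : ℕ → Bool) (i : ℕ) => !(s i) := rfl
  rw [h2, h]
  congr 1
  funext i
  exact bern_map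

theorem hp01 : ∀ i, 0 ≤ pp i ∧ pp i ≤ 1 := fun i => by
  have := env.2.2.2.2.2 i
  constructor <;> linarith [this.1, this.2]

theorem lmean : StmLMean := by
  intro x
  have hMeas := Pool.Agent.N276.ER.meas
  have h1 : ∫⁻ s, (U x (neg s) : ℝ≥0∞) ∂SS = ∫⁻ s, (U x s : ℝ≥0∞) ∂(stackLaw fun i => 1 - pp i) := by
    rw [← map_neg hp01, lintegral_map]
    · exact (measurable_of_countable (fun m : ℕ => (m : ℝ≥0∞))).comp (hMeas.2.1 x)
    · exact hMeas.2.2.1
  have hp : ∀ i, 49 / 100 ≤ 1 - pp i ∧ 1 - pp i ≤ 51 / 100 := fun i => by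
    have := env.2.2.2.2.2 i
    constructor <;> linarith [this.1, this.2]
  obtain ⟨i1, -, i3⟩ := wald' (fun i => 1 - pp i) hp x
  have hpr : IsProbabilityMeasure (stackLaw fun i => 1 - pp i) := prob.1 _ fun i => by
    have := hp i
    constructor <;> linarith [this.1, this.2]
  rw [h1]
  have h3 : ∫⁻ s, (U x s : ℝ≥0∞) ∂(stackLaw fun i => 1 - pp i) =
      ENNReal.ofReal (∫ s, (U x s : ℝ) ∂(stackLaw fun i => 1 - pp i)) := by
    rw [ofReal_integral_eq_lintegral_ofReal i1
      (Filter.Eventually.of_forall fun u => Nat.cast_nonneg _)]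
    refine lintegral_congr fun u => ?_
    rw [ENNReal.ofReal_natCast]
  rw [h3]
  have h4 : ∫ s, ((U x s : ℝ) - x) ∂(stackLaw fun i => 1 - pp i) ≤ 0 := by
    rw [i3]
    refine integral_nonpos fun s => ?_
    have h5 : ∑ i ∈ Finset.range (T x s), (2 * (1 - pp i) - 1) = - (2 * A (T x s)) := by
      have h6 : ∑ i ∈ Finset.range (T x s), (2 * (1 - pp i) - 1) =
          ∑ i ∈ Finset.range (T x s), (1 - 2 * pp i) := Finset.sum_congr rfl fun i _ => by ring
      rw [h6, Finset.sum_sub_distrib, ← Finset.mul_sum, sum_pp]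
      simp
      ring
    show ∑ i ∈ Finset.range (T x s), (2 * (1 - pp i) - 1) ≤ 0
    rw [h5]
    have := (env.2.1 (T x s)).1
    linarith
  rw [integral_sub i1 (integrable_const _), integral_const, probReal_univ, one_smul] at h4
  calc ENNReal.ofReal (∫ s, (U x s : ℝ) ∂(stackLaw fun i => 1 - pp i)) ≤ ENNReal.ofReal x :=
        ENNReal.ofReal_le_ofReal (by linarith)
    _ = x := ENNReal.ofReal_natCast x

end Pool.Agent.U430.ER
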