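import Pool.Agent.N276.ER.Stm

/-!
# The analysis of the Lyapunov function
-/

set_option autoImplicit false

open MeasureTheory ProbabilityTheory Filter Topology Set
open scoped ENNReal

namespace Pool.Agent.U430.ER

open Pool.Agent.N276.ER

/-- `log (1 + w) ≥ w - w² / 2` for `w ≥ 0` -/
theorem log_lower_pos {w : ℝ} (hw : 0 ≤ w) : w - w ^ 2 / 2 ≤ Real.log (1 + w) := by
  have h1 := Real.le_log_one_add_of_nonneg hw
  refine le_trans ?_ h1
  rw [le_div_iff₀ (by linarith)]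
  nlinarith [pow_nonneg hw 3, sq_nonneg w]

/-- bounds of `-log (1 - t)` -/
theorem neg_log_bd {t : ℝ} (h0 : 0 ≤ t) (h1 : t ≤ 1 / 2) :
    -Real.log (1 - t) ≤ t + t ^ 2 / 2 + 2 * t ^ 3 ∧ -Real.log (1 - t) ≤ t + 2 * t ^ 2 ∧
    t ≤ -Real.log (1 - t) := by
  have habs : |t| < 1 := by
    rw [abs_of_nonneg h0]
    linarith
  have h := Real.abs_log_sub_add_sum_range_le habs 2
  rw [Finset.sum_range_succ, Finset.sum_range_one, abs_of_nonneg h0] at h
  have h' := Real.abs_log_sub_add_sum_range_le habs 1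
  rw [Finset.sum_range_one, abs_of_nonneg h0] at h'
  have h3 : t ^ 3 / (1 - t) ≤ 2 * t ^ 3 := by
    rw [div_le_iff₀ (by linarith)]
    nlinarith [pow_nonneg h0 3]
  have h3' : t ^ 2 / (1 - t) ≤ 2 * t ^ 2 := by
    rw [div_le_iff₀ (by linarith)]
    nlinarith [pow_nonneg h0 2]
  have h4 := (abs_le.1 h).1
  have h4' := (abs_le.1 h').1
  have hlow : t ≤ -Real.log (1 - t) := by
    have := Real.log_le_sub_one_of_pos (x := 1 - t) (by linarith)
    linarith
  norm_num at h4 h4'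
  refine ⟨?_, ?_, hlow⟩
  · linarith
  · linarith

/-- the pointwise bound, `w ≥ 0` -/
theorem ptw_pos {L w : ℝ} (hL : 1 ≤ L) (hw : 0 ≤ w) :
    1 / (L + Real.log (1 + w)) ≤ 1 / L - w / L ^ 2 + w ^ 2 / (2 * L ^ 2) + w ^ 2 / L ^ 3 := by
  obtain ⟨v, hv⟩ : ∃ v, v = Real.log (1 + w) := ⟨_, rfl⟩
  have h1 : w - w ^ 2 / 2 ≤ v := by rw [hv]; exact log_lower_pos hw
  have h2 : v ≤ w := by
    rw [hv]
    have := Real.log_le_sub_one_of_pos (x := 1 + w) (by linarith)
    linarith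
  have h3 : 0 ≤ v := by
    rw [hv]
    exact Real.log_nonneg (by linarith)
  rw [← hv]
  have hL0 : 0 < L := by linarith
  have e : 1 / (L + v) = 1 / L - v / L ^ 2 + v ^ 2 / (L ^ 2 * (L + v)) := by
    field_simp
    ring
  rw [e]
  have h4 : v ^ 2 / (L ^ 2 * (L + v)) ≤ w ^ 2 / L ^ 3 := by
    have h5 : v ^ 2 ≤ w ^ 2 := pow_le_pow_left₀ h3 h2 2
    have h6 : L ^ 3 ≤ L ^ 2 * (L + v) := by nlinarith [sq_nonneg L]
    exact div_le_div₀ (sq_nonneg w) h5 (by positivity) h6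
  have h7 : (w - w ^ 2 / 2) / L ^ 2 ≤ v / L ^ 2 := div_le_div_of_nonneg_right h1 (by positivity)
  have h8 : (w - w ^ 2 / 2) / L ^ 2 = w / L ^ 2 - w ^ 2 / (2 * L ^ 2) := by
    field_simp
  linarith

/-- the pointwise bound, `-1/2 ≤ w ≤ 0` -/
theorem ptw_neg {L t : ℝ} (hL : 2 ≤ L) (h0 : 0 ≤ t) (h1 : t ≤ 1 / 2) :
    1 / (L + Real.log (1 - t)) ≤ 1 / L + t / L ^ 2 + t ^ 2 / (2 * L ^ 2) + t ^ 2 / L ^ 3 +
      16 * t ^ 3 := by
  obtain ⟨v, hv⟩ : ∃ v, v = -Real.log (1 - t) := ⟨_, rfl⟩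
  obtain ⟨a1, a2, a3⟩ := neg_log_bd h0 h1
  rw [← hv] at a1 a2 a3
  have e0 : L + Real.log (1 - t) = L - v := by rw [hv]; ring
  rw [e0]
  have hv1 : v ≤ 1 := by nlinarith
  have hv0 : 0 ≤ v := by linarith
  have hv2 : v ≤ 2 * t := by nlinarith
  have hvv : v ^ 2 ≤ t ^ 2 + 6 * t ^ 3 := by
    have b1 : v ^ 2 ≤ (t + 2 * t ^ 2) ^ 2 := pow_le_pow_left₀ hv0 a2 2
    have b2 : t ^ 4 ≤ t ^ 3 / 2 := by
      have : t ^ 3 * t ≤ t ^ 3 * (1 / 2) := mul_le_mul_of_nonneg_left h1 (pow_nonneg h0 3)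
      nlinarith
    nlinarith
  have hv3 : v ^ 3 ≤ 8 * t ^ 3 := by
    have : v ^ 3 ≤ (2 * t) ^ 3 := pow_le_pow_left₀ hv0 hv2 3
    nlinarith
  have hL0 : 0 < L := by linarith
  have hLv : 1 ≤ L - v := by linarith
  have hLv0 : 0 < L - v := by linarith
  have e : 1 / (L - v) = 1 / L + v / L ^ 2 + v ^ 2 / L ^ 3 + v ^ 3 / (L ^ 3 * (L - v)) := by
    field_simp
    ring
  rw [e]
  have c1 : v ^ 3 / (L ^ 3 * (L - v)) ≤ 8 * t ^ 3 := by
    have d1 : (1 : ℝ) ≤ L ^ 3 * (L - v) := by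
      have : (1 : ℝ) ≤ L ^ 3 := one_le_pow₀ (by linarith)
      nlinarith
    calc v ^ 3 / (L ^ 3 * (L - v)) ≤ v ^ 3 / 1 :=
          div_le_div_of_nonneg_left (by positivity) one_pos d1
      _ ≤ 8 * t ^ 3 := by rw [div_one]; exact hv3
  have c2 : v ^ 2 / L ^ 3 ≤ t ^ 2 / L ^ 3 + 6 * t ^ 3 := by
    have d1 : (1 : ℝ) ≤ L ^ 3 := one_le_pow₀ (by linarith)
    have d2 : v ^ 2 / L ^ 3 ≤ (t ^ 2 + 6 * t ^ 3) / L ^ 3 :=
      div_le_div_of_nonneg_right hvv (by positivity)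
    have d3 : 6 * t ^ 3 / L ^ 3 ≤ 6 * t ^ 3 := div_le_self (by positivity) d1
    rw [add_div] at d2
    linarith
  have c3 : v / L ^ 2 ≤ t / L ^ 2 + t ^ 2 / (2 * L ^ 2) + 2 * t ^ 3 := by
    have d1 : (1 : ℝ) ≤ L ^ 2 := one_le_pow₀ (by linarith)
    have d2 : v / L ^ 2 ≤ (t + t ^ 2 / 2 + 2 * t ^ 3) / L ^ 2 :=
      div_le_div_of_nonneg_right a1 (by positivity)
    have d3 : 2 * t ^ 3 / L ^ 2 ≤ 2 * t ^ 3 := div_le_self (by positivity) d1
    rw [add_div, add_div] at d2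
    have d4 : t ^ 2 / 2 / L ^ 2 = t ^ 2 / (2 * L ^ 2) := by field_simp
    rw [d4] at d2
    linarith
  linarith

/-- the pointwise bound -/
theorem ptw {a u : ℝ} (ha : 3 ≤ a) (hL : 2 ≤ Real.log a) (hu : 3 ≤ a + u) :
    1 / Real.log (a + u) ≤ 1 / Real.log a - (u / a) / Real.log a ^ 2 +
      (u / a) ^ 2 / (2 * Real.log a ^ 2) + (u / a) ^ 2 / Real.log a ^ 3 +
      16 * (max (-(u / a)) 0) ^ 3 := by
  obtain ⟨w, hw⟩ : ∃ w, w = u / a := ⟨_, rfl⟩
  rw [← hw]
  have ha0 : 0 < a := by linarith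
  have e1 : a + u = a * (1 + w) := by
    rw [hw]
    field_simp
  have hw1 : 0 < 1 + w := by
    by_contra hc
    push Not at hc
    have : a * (1 + w) ≤ 0 := mul_nonpos_of_nonneg_of_nonpos ha0.le hc
    linarith
  have e2 : Real.log (a + u) = Real.log a + Real.log (1 + w) := by
    rw [e1, Real.log_mul ha0.ne' hw1.ne']
  rcases le_or_gt 0 w with h | h
  · rw [e2, max_eq_right (by linarith)]
    have := ptw_pos (L := Real.log a) (by linarith) h
    linarith
  · rw [max_eq_left (by linarith)]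
    rcases le_or_gt (-w) (1 / 2) with h2 | h2
    · rw [e2]
      have := ptw_neg hL (t := -w) (by linarith) h2
      have e3 : 1 - -w = 1 + w := by ring
      rw [e3] at this
      have e4 : (-w) ^ 2 = w ^ 2 := by ring
      rw [e4] at this
      have e5 : -w / Real.log a ^ 2 = -(w / Real.log a ^ 2) := by ring
      rw [e5] at this
      linarith
    · have h3 : (1 : ℝ) ≤ Real.log (a + u) := by
        rw [Real.le_log_iff_exp_le (by linarith)]
        have := Real.exp_one_lt_d9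
        linarith
      have h4 : 1 / Real.log (a + u) ≤ 1 := by
        rw [div_le_one (by linarith)]
        exact h3
      have h5 : (1 / 2 : ℝ) ^ 3 ≤ (-w) ^ 3 := pow_le_pow_left₀ (by norm_num) h2.le 3
      have h6 : 0 ≤ 1 / Real.log a := by positivity
      have h7 : w / Real.log a ^ 2 ≤ 0 := div_nonpos_of_nonpos_of_nonneg h.le (by positivity)
      have h8 : 0 ≤ w ^ 2 / (2 * Real.log a ^ 2) := by positivity
      have h9 : 0 ≤ w ^ 2 / Real.log a ^ 3 := by
        have : 0 < Real.log a := by linarith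
        positivity
      norm_num at h5
      linarith

theorem large : ∃ x₀ : ℕ, ∀ x : ℕ, x₀ ≤ x →
    4 ≤ Real.log (x + 3) ∧ 600 * Real.log (x + 3) ^ 4 ≤ Real.sqrt (x + 3) ∧ 100 ≤ x := by
  have h1 : ∀ᶠ z : ℝ in atTop, Real.log z ^ 4 ≤ 1 / 9600 * z := by
    have h := (Real.isLittleO_pow_log_id_atTop (n := 4)).bound (show (0 : ℝ) < 1 / 9600 by norm_num)
    filter_upwards [h, eventually_ge_atTop 1] with z hz hz1
    rw [id, Real.norm_eq_abs, Real.norm_eq_abs, abs_of_nonneg (by linarith : (0 : ℝ) ≤ z)] at hz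
    exact (le_abs_self _).trans hz
  have hs : Tendsto (fun x : ℕ => Real.sqrt ((x : ℝ) + 3)) atTop atTop :=
    Real.tendsto_sqrt_atTop.comp (tendsto_atTop_add_const_right _ _ tendsto_natCast_atTop_atTop)
  have hl : Tendsto (fun x : ℕ => Real.log ((x : ℝ) + 3)) atTop atTop :=
    Real.tendsto_log_atTop.comp (tendsto_atTop_add_const_right _ _ tendsto_natCast_atTop_atTop)
  obtain ⟨x₀, hx₀⟩ := eventually_atTop.1 ((hs.eventually h1).and
    ((hl.eventually (eventually_ge_atTop 4)).and (eventually_ge_atTop 100)))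
  refine ⟨x₀, fun x hx => ?_⟩
  obtain ⟨a1, a2, a3⟩ := hx₀ x hx
  refine ⟨a2, ?_, a3⟩
  have e : Real.log (Real.sqrt ((x : ℝ) + 3)) = Real.log (x + 3) / 2 :=
    Real.log_sqrt (by positivity)
  rw [e] at a1
  nlinarith

/-- the final inequality -/
theorem fin_ineq {a y L t : ℝ} (hy : 0 ≤ y) (hay : a = y ^ 2) (hL : 4 ≤ L)
    (hyL : 600 * L ^ 4 ≤ y) (ht0 : 0 ≤ t) (ht : t ≤ 8 * L * y + 1) :
    1 / L - (1 + 3 / L) / a / L ^ 2 +
      (2 * a + 20 * y + 100) / a ^ 2 * (1 / (2 * L ^ 2) + 1 / L ^ 3 + 16 * (t / a)) +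
      16 * (2 / a ^ 2) ≤ 1 / L := by
  have hL4 : (256 : ℝ) ≤ L ^ 4 := by
    calc (256 : ℝ) = 4 ^ 4 := by norm_num
      _ ≤ L ^ 4 := pow_le_pow_left₀ (by norm_num) hL 4
  have hy1 : 153600 ≤ y := by linarith
  have ha : 0 < a := by rw [hay]; positivity
  have hL0 : 0 < L := by linarith
  -- the key bound
  have key : L ^ 3 * (20 * y + 180 + 384 * L * y) ≤ a := by
    rw [hay]
    have k1 : 20 * y + 180 + 384 * L * y ≤ 600 * (L * y) := by nlinarith
    calc L ^ 3 * (20 * y + 180 + 384 * L * y) ≤ L ^ 3 * (600 * (L * y)) :=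
          mul_le_mul_of_nonneg_left k1 (by positivity)
      _ = 600 * L ^ 4 * y := by ring
      _ ≤ y * y := mul_le_mul_of_nonneg_right hyL hy
      _ = y ^ 2 := by ring
  have h1 : 2 * a + 20 * y + 100 ≤ 3 * a := by rw [hay]; nlinarith
  have h2 : (2 * a + 20 * y + 100) / a ^ 2 * (16 * (t / a)) ≤ 48 * t / a ^ 2 := by
    have : (2 * a + 20 * y + 100) / a ^ 2 * (16 * (t / a)) ≤ (3 * a) / a ^ 2 * (16 * (t / a)) := by
      apply mul_le_mul_of_nonneg_right _ (by positivity)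
      exact div_le_div_of_nonneg_right h1 (by positivity)
    refine this.trans (le_of_eq ?_)
    field_simp
    ring
  have h3 : (20 * y + 100) / a ^ 2 * (1 / (2 * L ^ 2) + 1 / L ^ 3) ≤ (20 * y + 100) / a ^ 2 := by
    apply mul_le_of_le_one_right (by positivity)
    have g1 : 1 / (2 * L ^ 2) ≤ 1 / 2 := by
      apply one_div_le_one_div_of_le (by norm_num)
      nlinarith [one_le_pow₀ (n := 2) (by linarith : (1 : ℝ) ≤ L)]
    have g2 : 1 / L ^ 3 ≤ 1 / 2 := by
      apply one_div_le_one_div_of_le (by norm_num)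
      have : (4 : ℝ) ^ 3 ≤ L ^ 3 := pow_le_pow_left₀ (by norm_num) hL 3
      linarith
    linarith
  have h4 : 2 * a / a ^ 2 * (1 / (2 * L ^ 2) + 1 / L ^ 3) = 1 / (a * L ^ 2) + 2 / (a * L ^ 3) := by
    field_simp
  have h5 : (1 + 3 / L) / a / L ^ 2 = 1 / (a * L ^ 2) + 3 / (a * L ^ 3) := by
    field_simp
  have h6 : (2 * a + 20 * y + 100) / a ^ 2 * (1 / (2 * L ^ 2) + 1 / L ^ 3 + 16 * (t / a)) =
      2 * a / a ^ 2 * (1 / (2 * L ^ 2) + 1 / L ^ 3) +
      (20 * y + 100) / a ^ 2 * (1 / (2 * L ^ 2) + 1 / L ^ 3) +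
      (2 * a + 20 * y + 100) / a ^ 2 * (16 * (t / a)) := by
    ring
  have h7 : (20 * y + 100) / a ^ 2 + 48 * t / a ^ 2 + 16 * (2 / a ^ 2) ≤ 1 / (a * L ^ 3) := by
    have g1 : (20 * y + 100) / a ^ 2 + 48 * t / a ^ 2 + 16 * (2 / a ^ 2) =
        (20 * y + 132 + 48 * t) / a ^ 2 := by
      field_simp
      ring
    rw [g1, div_le_div_iff₀ (by positivity) (by positivity)]
    have g2 : 20 * y + 132 + 48 * t ≤ 20 * y + 180 + 384 * L * y := by linarith
    calc (20 * y + 132 + 48 * t) * (a * L ^ 3) ≤ (20 * y + 180 + 384 * L * y) * (a * L ^ 3) :=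
          mul_le_mul_of_nonneg_right g2 (by positivity)
      _ = (L ^ 3 * (20 * y + 180 + 384 * L * y)) * a := by ring
      _ ≤ a * a := mul_le_mul_of_nonneg_right key ha.le
      _ = 1 * a ^ 2 := by ring
  have h8 : 3 / (a * L ^ 3) = 2 / (a * L ^ 3) + 1 / (a * L ^ 3) := by ring
  rw [h6, h4, h5]
  linarith

/-- the cubic error -/
theorem cube_le {w q : ℝ} (hw : -w ≤ 1) (hq : 0 ≤ q) :
    (max (-w) 0) ^ 3 ≤ q * w ^ 2 + (if q ≤ |w| then 1 else 0) := by
  rcases le_or_gt 0 w with h | h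
  · rw [max_eq_right (by linarith)]
    have : 0 ≤ q * w ^ 2 := by positivity
    split_ifs <;> nlinarith
  · rw [max_eq_left (by linarith)]
    split_ifs with h2
    · have h3 : (-w) ^ 3 ≤ 1 := pow_le_one₀ (by linarith) hw
      have : 0 ≤ q * w ^ 2 := by positivity
      linarith
    · push Not at h2
      rw [abs_of_neg h] at h2
      have h3 : (-w) ^ 3 = (-w) * w ^ 2 := by ring
      rw [h3, add_zero]
      exact mul_le_mul_of_nonneg_right h2.le (sq_nonneg w)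

theorem lyap : StmLyap := by
  obtain ⟨x₀, hx₀⟩ := large
  refine ⟨x₀, fun x hx μ D hμ hDm hD0 hD2 hmean hsq htail => ?_⟩
  obtain ⟨hL, hyL, hx100⟩ := hx₀ x hx
  obtain ⟨a, ha⟩ : ∃ a : ℝ, a = x + 3 := ⟨_, rfl⟩
  obtain ⟨L, hLdef⟩ : ∃ L, L = Real.log a := ⟨_, rfl⟩
  obtain ⟨y, hydef⟩ : ∃ y, y = Real.sqrt a := ⟨_, rfl⟩
  rw [← ha, ← hLdef] at hL hyL
  rw [← hydef] at hyL
  have hx0 : (100 : ℝ) ≤ x := by exact_mod_cast hx100
  have ha0 : 0 < a := by rw [ha]; linarith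
  have hy : 0 ≤ y := by rw [hydef]; exact Real.sqrt_nonneg _
  have hay : a = y ^ 2 := by rw [hydef]; exact (Real.sq_sqrt ha0.le).symm
  have hL4 : (256 : ℝ) ≤ L ^ 4 := by
    calc (256 : ℝ) = 4 ^ 4 := by norm_num
      _ ≤ L ^ 4 := pow_le_pow_left₀ (by norm_num) hL 4
  have hy1 : 153600 ≤ y := by linarith
  have hL0 : 0 < L := by linarith
  have hLL4 : L ≤ L ^ 4 := by
    have : (1 : ℝ) ≤ L ^ 3 := one_le_pow₀ (by linarith)
    nlinarith
  obtain ⟨t, ht⟩ : ∃ t : ℕ, t = ⌈8 * L * y⌉₊ := ⟨_, rfl⟩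
  have ht1 : 8 * L * y ≤ t := by rw [ht]; exact Nat.le_ceil _
  have ht2 : (t : ℝ) ≤ 8 * L * y + 1 := by
    rw [ht]
    exact (Nat.ceil_lt_add_one (by positivity)).le
  have hta : (t : ℝ) ≤ a := by
    have : 8 * L * y + 1 ≤ 9 * L * y := by nlinarith
    rw [hay]
    nlinarith
  have ht3 : 2 ≤ t := by
    have : (2 : ℝ) ≤ t := by nlinarith
    exact_mod_cast this
  have ht0 : (0 : ℝ) < t := by
    have : (2 : ℝ) ≤ t := by exact_mod_cast ht3
    linarith
  -- the tail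
  have htl : μ.real {s | (t : ℝ) ≤ |D s|} ≤ 2 / a ^ 2 := by
    refine (htail t ht3).trans ?_
    have e0 : Real.exp (2 * L) = a ^ 2 := by
      rw [hLdef, show 2 * Real.log a = Real.log a + Real.log a by ring, Real.exp_add,
        Real.exp_log ha0]
      ring
    have e1 : 2 / a ^ 2 = 2 * Real.exp (-(2 * L)) := by
      rw [Real.exp_neg, e0]
      field_simp
    rw [e1]
    apply mul_le_mul_of_nonneg_left _ (by norm_num)
    rw [Real.exp_le_exp, neg_div, neg_le_neg_iff, le_div_iff₀ (by positivity)]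
    have e2 : 2 * L * (8 * (2 * x + t)) ≤ 48 * L * a := by
      have : 2 * (x : ℝ) + t ≤ 3 * a := by rw [ha] at hta ⊢; linarith
      nlinarith
    have e3 : (8 * L * y) ^ 2 ≤ (t : ℝ) ^ 2 := pow_le_pow_left₀ (by positivity) ht1 2
    have e4 : (8 * L * y) ^ 2 = 64 * L ^ 2 * a := by rw [hay]; ring
    have e5 : 48 * L * a ≤ 64 * L ^ 2 * a := by
      apply mul_le_mul_of_nonneg_right _ ha0.le
      nlinarith
    linarith
  -- integrability
  have hDi : Integrable D μ := by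
    have h1 : MemLp D 2 μ := (memLp_two_iff_integrable_sq hDm.aestronglyMeasurable).2 hD2
    exact h1.integrable (by norm_num)
  have hwi : Integrable (fun s => D s / a) μ := hDi.div_const a
  have hw2i : Integrable (fun s => (D s / a) ^ 2) μ := by
    have : (fun s => (D s / a) ^ 2) = fun s => D s ^ 2 / a ^ 2 := by
      funext s
      rw [div_pow]
    rw [this]
    exact hD2.div_const _
  have hS : MeasurableSet {s | (t : ℝ) ≤ |D s|} :=
    measurableSet_le measurable_const (_root_.continuous_abs.measurable.comp hDm)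
  have hIi : Integrable ({s | (t : ℝ) ≤ |D s|}.indicator fun _ => (1 : ℝ)) μ :=
    (integrable_const (1 : ℝ)).indicator hS
  -- the bound
  have hpt : ∀ s, 1 / Real.log (x + D s + 3) ≤ 1 / L - (D s / a) / L ^ 2 +
      (D s / a) ^ 2 * (1 / (2 * L ^ 2) + 1 / L ^ 3 + 16 * (t / a)) +
      16 * ({s | (t : ℝ) ≤ |D s|}.indicator (fun _ => (1 : ℝ)) s) := by
    intro s
    have h1 := ptw (a := a) (u := D s) (by rw [ha]; linarith) (by rw [← hLdef]; linarith)
      (by rw [ha]; linarith [hD0 s])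
    rw [← hLdef] at h1
    have e1 : (x : ℝ) + D s + 3 = a + D s := by rw [ha]; ring
    rw [e1]
    have hw1 : -(D s / a) ≤ 1 := by
      rw [← neg_div, div_le_one ha0, ha]
      linarith [hD0 s]
    have h2 := cube_le (w := D s / a) (q := t / a) hw1 (by positivity)
    have h3 : (if (t : ℝ) / a ≤ |D s / a| then (1 : ℝ) else 0) =
        {s | (t : ℝ) ≤ |D s|}.indicator (fun _ => (1 : ℝ)) s := by
      have hiff : (t : ℝ) / a ≤ |D s / a| ↔ (t : ℝ) ≤ |D s| := by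
        rw [abs_div, abs_of_pos ha0, div_le_div_iff_of_pos_right ha0]
      by_cases h : (t : ℝ) ≤ |D s|
      · rw [if_pos (hiff.2 h), Set.indicator_of_mem (show s ∈ {s | (t : ℝ) ≤ |D s|} from h)]
      · rw [if_neg (fun hh => h (hiff.1 hh)),
          Set.indicator_of_notMem (show s ∉ {s | (t : ℝ) ≤ |D s|} from h)]
    rw [h3] at h2
    have e2 : (D s / a) ^ 2 * (1 / (2 * L ^ 2) + 1 / L ^ 3 + 16 * (t / a)) =
        (D s / a) ^ 2 / (2 * L ^ 2) + (D s / a) ^ 2 / L ^ 3 + 16 * (t / a * (D s / a) ^ 2) := by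
      field_simp
    rw [e2]
    linarith
  have hlm : Measurable fun s => 1 / Real.log (x + D s + 3) :=
    measurable_const.div (Real.measurable_log.comp ((measurable_const.add hDm).add measurable_const))
  have hli : Integrable (fun s => 1 / Real.log (x + D s + 3)) μ := by
    refine Integrable.of_bound (C := 1) hlm.aestronglyMeasurable (Eventually.of_forall fun s => ?_)
    have h3 : (1 : ℝ) ≤ Real.log (x + D s + 3) := by
      have hh : 3 ≤ (x : ℝ) + D s + 3 := by linarith [hD0 s]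
      rw [Real.le_log_iff_exp_le (by linarith)]
      have := Real.exp_one_lt_d9
      linarith
    rw [Real.norm_eq_abs, abs_of_nonneg (by positivity), div_le_one (by linarith)]
    exact h3
  have hR1 : Integrable (fun s => 1 / L - (D s / a) / L ^ 2) μ :=
    (integrable_const _).sub (hwi.div_const _)
  have hR2 : Integrable (fun s => (D s / a) ^ 2 * (1 / (2 * L ^ 2) + 1 / L ^ 3 + 16 * (t / a))) μ :=
    hw2i.mul_const _
  have hR12 : Integrable (fun s => 1 / L - (D s / a) / L ^ 2 +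
      (D s / a) ^ 2 * (1 / (2 * L ^ 2) + 1 / L ^ 3 + 16 * (t / a))) μ := hR1.add hR2
  have hR3 : Integrable (fun s => 16 * ({s | (t : ℝ) ≤ |D s|}.indicator (fun _ => (1 : ℝ)) s)) μ :=
    hIi.const_mul 16
  have hint : ∫ s, 1 / Real.log (x + D s + 3) ∂μ ≤
      ∫ s, (1 / L - (D s / a) / L ^ 2 +
        (D s / a) ^ 2 * (1 / (2 * L ^ 2) + 1 / L ^ 3 + 16 * (t / a)) +
        16 * ({s | (t : ℝ) ≤ |D s|}.indicator (fun _ => (1 : ℝ)) s)) ∂μ :=
    integral_mono hli (hR12.add hR3) hpt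
  rw [integral_add hR12 hR3, integral_add hR1 hR2,
    integral_sub (integrable_const _) (hwi.div_const _), integral_const, probReal_univ, one_smul,
    integral_div, integral_div, integral_mul_const, integral_const_mul, integral_indicator hS,
    integral_const] at hint
  have hIr : ((μ.restrict {s | (t : ℝ) ≤ |D s|}).real univ) • (1 : ℝ) =
      μ.real {s | (t : ℝ) ≤ |D s|} := by
    rw [smul_eq_mul, mul_one, measureReal_restrict_apply MeasurableSet.univ, Set.univ_inter]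
  rw [hIr] at hint
  have hsq2 : ∫ s, (D s / a) ^ 2 ∂μ ≤ (2 * a + 20 * y + 100) / a ^ 2 := by
    have e1 : ∫ s, (D s / a) ^ 2 ∂μ = (∫ s, D s ^ 2 ∂μ) / a ^ 2 := by
      rw [← integral_div]
      congr 1
      funext s
      rw [div_pow]
    rw [e1]
    apply div_le_div_of_nonneg_right _ (by positivity)
    have e2 : Real.sqrt x ≤ y := by
      rw [hydef]
      exact Real.sqrt_le_sqrt (by rw [ha]; linarith)
    rw [ha]
    linarith
  have hlogx : Real.log x ≤ L := by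
    rw [hLdef]
    exact Real.log_le_log (by linarith) (by rw [ha]; linarith)
  have hlogx0 : 0 < Real.log x := Real.log_pos (by linarith)
  have hm2 : 1 + 3 / L ≤ ∫ s, D s ∂μ := by
    refine le_trans ?_ hmean
    have : 3 / L ≤ 3 / Real.log x := div_le_div_of_nonneg_left (by norm_num) hlogx0 hlogx
    linarith
  have hm3 : (1 + 3 / L) / a / L ^ 2 ≤ (∫ s, D s ∂μ) / a / L ^ 2 := by
    apply div_le_div_of_nonneg_right _ (by positivity)
    exact div_le_div_of_nonneg_right hm2 ha0.le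
  have hc0 : 0 ≤ 1 / (2 * L ^ 2) + 1 / L ^ 3 + 16 * ((t : ℝ) / a) := by positivity
  have hs3 : (∫ s, (D s / a) ^ 2 ∂μ) * (1 / (2 * L ^ 2) + 1 / L ^ 3 + 16 * ((t : ℝ) / a)) ≤
      (2 * a + 20 * y + 100) / a ^ 2 * (1 / (2 * L ^ 2) + 1 / L ^ 3 + 16 * ((t : ℝ) / a)) :=
    mul_le_mul_of_nonneg_right hsq2 hc0
  have hf := fin_ineq hy hay hL hyL ht0.le ht2
  have hgoal : 1 / L = 1 / Real.log (x + 3) := by rw [hLdef, ha]
  rw [← hgoal]
  linarith

end Pool.Agent.U430.ER
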