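import Pool.Agent.U430.ER.Kern
import Pool.Agent.U430.ER.Die

/-!
# The chain to the right survives with positive probability
-/

set_option autoImplicit false

open MeasureTheory ProbabilityTheory Filter Topology Set
open scoped ENNReal

namespace Pool.Agent.U430.ER

open Pool.Agent.N276.ER

theorem Z_congr (k : ℕ) (s s' : ℕ → ℕ → Bool) (h : ∀ j < k, s j = s' j) :
    Z s k = Z s' k := by
  induction k with
  | zero => rfl
  | succ k ih =>
    simp only [Z]
    rw [ih fun j hj => h j (by omega), h k (by omega)]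

theorem V_pos (x : ℕ) : 0 < V x := by
  unfold V
  have : 0 < Real.log ((x : ℝ) + 3) := Real.log_pos (by
    have : (0 : ℝ) ≤ x := Nat.cast_nonneg x
    linarith)
  positivity

theorem V_anti {x y : ℕ} (h : x ≤ y) : V y ≤ V x := by
  unfold V
  have hx : (0 : ℝ) ≤ x := Nat.cast_nonneg x
  have hxy : (x : ℝ) ≤ y := by exact_mod_cast h
  exact div_le_div_of_nonneg_left (by norm_num) (Real.log_pos (by linarith))
    (Real.log_le_log (by linarith) (by linarith))

theorem V_strict {x y : ℕ} (h : x < y) : V y < V x := by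
  unfold V
  have hx : (0 : ℝ) ≤ x := Nat.cast_nonneg x
  have hxy : (x : ℝ) < y := by exact_mod_cast h
  exact div_lt_div_of_pos_left (by norm_num) (Real.log_pos (by linarith))
    (Real.log_lt_log (by linarith) (by linarith))

theorem V_le_one (x : ℕ) : V x ≤ 1 := by
  unfold V
  have hx : (0 : ℝ) ≤ x := Nat.cast_nonneg x
  have h3 : (1 : ℝ) ≤ Real.log (x + 3) := by
    rw [Real.le_log_iff_exp_le (by linarith)]
    have := Real.exp_one_lt_d9
    linarith
  rw [div_le_one (by linarith)]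
  exact h3

/-- the next state of the killed chain: `0` not started, `1, ..., x₀` dead, `n + 1 > x₀` alive at `n` -/
noncomputable def nx (x₀ g : ℕ) (u : ℕ → Bool) : ℕ :=
  if g = 0 then 0 else if g ≤ x₀ then 1 else if x₀ ≤ U (g - 1) u then U (g - 1) u + 1 else 1

/-- the killed chain, started at time `1` if `Z 1 ≥ x₁` -/
noncomputable def K (x₀ x₁ : ℕ) (s : ℕ → ℕ → Bool) : ℕ → ℕ
  | 0 => if x₁ ≤ Z s 1 then Z s 1 + 1 else 0
  | k + 1 => nx x₀ (K x₀ x₁ s k) (s (k + 1))

/-- the potential -/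
noncomputable def pot (x₀ g : ℕ) : ℝ≥0∞ :=
  if g = 0 then 0 else if g ≤ x₀ then ENNReal.ofReal (V x₀) else ENNReal.ofReal (V (g - 1))

theorem K_congr (x₀ x₁ k : ℕ) (s s' : ℕ → ℕ → Bool) (h : ∀ j < k + 1, s j = s' j) :
    K x₀ x₁ s k = K x₀ x₁ s' k := by
  induction k with
  | zero =>
    simp only [K]
    rw [Z_congr 1 s s' h]
  | succ k ih =>
    simp only [K]
    rw [ih fun j hj => h j (by omega), h (k + 1) (by omega)]

theorem nx_meas (x₀ g : ℕ) : Measurable (nx x₀ g) := by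
  have hMeas := Pool.Agent.N276.ER.meas
  have h : nx x₀ g = (fun n : ℕ => if g = 0 then 0 else if g ≤ x₀ then 1 else
    if x₀ ≤ n then n + 1 else 1) ∘ U (g - 1) := rfl
  rw [h]
  exact (measurable_of_countable _).comp (hMeas.2.1 (g - 1))

theorem K_meas (x₀ x₁ k : ℕ) : Measurable fun s => K x₀ x₁ s k := by
  have hMeas := Pool.Agent.N276.ER.meas
  induction k with
  | zero =>
    have h : (fun s => K x₀ x₁ s 0) = (fun n : ℕ => if x₁ ≤ n then n + 1 else 0) ∘
      (fun s => Z s 1) := rfl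
    rw [h]
    exact (measurable_of_countable _).comp (hMeas.2.2.2.2.1 1)
  | succ k ih =>
    have h : (fun s => K x₀ x₁ s (k + 1)) = (fun q : ℕ × (ℕ → Bool) => nx x₀ q.1 q.2) ∘
      (fun s => (K x₀ x₁ s k, s (k + 1))) := rfl
    rw [h]
    exact (measurable_from_prod_countable_right fun n => nx_meas x₀ n).comp
      (ih.prodMk (measurable_pi_apply (k + 1)))

/-- the potential decreases in mean -/
theorem pot_nx (x₀ : ℕ) (h1 : 1 ≤ x₀) (hk : ∀ x : ℕ, x₀ ≤ x → ∫ s, V (U x s) ∂SS ≤ V x) (g : ℕ) :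
    ∫⁻ u, pot x₀ (nx x₀ g u) ∂SS ≤ pot x₀ g := by
  have := prob.2.1
  have hMeas := Pool.Agent.N276.ER.meas
  rcases Nat.eq_zero_or_pos g with h0 | h0
  · subst h0
    simp [nx, pot]
  rcases Nat.lt_or_ge x₀ g with hg | hg
  swap
  · have e1 : ∀ u, nx x₀ g u = 1 := by
      intro u
      unfold nx
      rw [if_neg (by omega), if_pos hg]
    have e2 : pot x₀ g = ENNReal.ofReal (V x₀) := by
      unfold pot
      rw [if_neg (by omega), if_pos hg]
    have e3 : pot x₀ 1 = ENNReal.ofReal (V x₀) := by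
      unfold pot
      rw [if_neg (by omega), if_pos h1]
    simp only [e1, e2, e3, lintegral_const, measure_univ, mul_one, le_refl]
  · have e1 : ∀ u, pot x₀ (nx x₀ g u) ≤ ENNReal.ofReal (V (U (g - 1) u)) := by
      intro u
      unfold nx
      rw [if_neg (by omega), if_neg (by omega)]
      split_ifs with h2
      · unfold pot
        rw [if_neg (by omega)]
        split_ifs with h3
        · omega
        · rw [Nat.add_sub_cancel]
      · have e3 : pot x₀ 1 = ENNReal.ofReal (V x₀) := by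
          unfold pot
          rw [if_neg (by omega), if_pos h1]
        rw [e3]
        exact ENNReal.ofReal_le_ofReal (V_anti (by omega))
    have e2 : pot x₀ g = ENNReal.ofReal (V (g - 1)) := by
      unfold pot
      rw [if_neg (by omega), if_neg (by omega)]
    rw [e2]
    refine (lintegral_mono e1).trans ?_
    have hVm : Measurable fun u => V (U (g - 1) u) :=
      (measurable_of_countable V).comp (hMeas.2.1 (g - 1))
    have hVi : Integrable (fun u => V (U (g - 1) u)) SS := by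
      refine Integrable.of_bound (C := 1) hVm.aestronglyMeasurable
        (Eventually.of_forall fun u => ?_)
      rw [Real.norm_eq_abs, abs_of_pos (V_pos _)]
      exact V_le_one _
    rw [← ofReal_integral_eq_lintegral_ofReal hVi (Eventually.of_forall fun u => (V_pos _).le)]
    exact ENNReal.ofReal_le_ofReal (hk (g - 1) (by omega))

theorem start_pos (x₁ : ℕ) : 0 < RR {s | x₁ ≤ Z s 1} := by
  have hSS := prob.2.1
  have hRR := prob.2.2.2
  have hMeas := Pool.Agent.N276.ER.meas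
  have h1 : Measure.map (fun s : ℕ → ℕ → Bool => s 0) RR = SS :=
    Measure.infinitePi_map_eval (fun _ : ℕ => SS) 0
  have h2 : {s : ℕ → ℕ → Bool | x₁ ≤ Z s 1} = (fun s : ℕ → ℕ → Bool => s 0) ⁻¹' {u | x₁ ≤ U 1 u} :=
    rfl
  have hm : MeasurableSet {u : ℕ → Bool | x₁ ≤ U 1 u} := (hMeas.2.1 1) (t := {m | x₁ ≤ m}) trivial
  rw [h2, ← Measure.map_apply (measurable_pi_apply 0) hm, h1]
  have h3 := prob_true x₁
  have h4 : SS {u | ∀ i < x₁, u i = true} ≤ SS {u | x₁ ≤ U 1 u} := by
    refine measure_mono_ae ?_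
    filter_upwards [inf] with u hu h
    show x₁ ≤ U 1 u
    have h5 := Mom2Aux.fails_T hu 1
    have h6 : ¬ T 1 u ≤ x₁ := by
      intro h7
      have h8 : fails u (T 1 u) = 0 := by
        unfold fails
        rw [Finset.card_eq_zero, Finset.filter_eq_empty_iff]
        intro i hi
        have := (show ∀ i < x₁, u i = true from h) i (by
          have := Finset.mem_range.1 hi
          omega)
        simp [this]
      omega
    unfold U
    omega
  refine lt_of_lt_of_le ?_ (h3.trans h4)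
  refine pos_iff_ne_zero.2 (pow_ne_zero _ ?_)
  simp

theorem surv : StmSurv := by
  have hSS := prob.2.1
  have hRR := prob.2.2.2
  have hMeas := Pool.Agent.N276.ER.meas
  obtain ⟨x', hx'⟩ := kern
  obtain ⟨x₀, hx₀, h1⟩ : ∃ x₀, x' ≤ x₀ ∧ 1 ≤ x₀ := ⟨x' + 1, by omega, by omega⟩
  have hk : ∀ x : ℕ, x₀ ≤ x → ∫ s, V (U x s) ∂SS ≤ V x := fun x hx => hx' x (hx₀.trans hx)
  obtain ⟨x₁, hx₁⟩ : ∃ x₁, x₁ = x₀ + 1 := ⟨_, rfl⟩
  have hpm : Measurable (pot x₀) := measurable_of_countable _
  -- the potential at time `k`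
  have hdec : ∀ k, ∫⁻ s, pot x₀ (K x₀ x₁ s k) ∂(RR) ≤
      ENNReal.ofReal (V x₁) * RR {s | x₁ ≤ Z s 1} := by
    intro k
    induction k with
    | zero =>
      have hm : MeasurableSet {s : ℕ → ℕ → Bool | x₁ ≤ Z s 1} :=
        (hMeas.2.2.2.2.1 1) (t := {m | x₁ ≤ m}) trivial
      rw [← lintegral_indicator_const hm]
      refine lintegral_mono fun s => ?_
      by_cases h : x₁ ≤ Z s 1
      · rw [Set.indicator_of_mem (show s ∈ {s | x₁ ≤ Z s 1} from h)]
        show pot x₀ (if x₁ ≤ Z s 1 then Z s 1 + 1 else 0) ≤ _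
        rw [if_pos h]
        unfold pot
        rw [if_neg (by omega), if_neg (by omega), Nat.add_sub_cancel]
        exact ENNReal.ofReal_le_ofReal (V_anti h)
      · rw [Set.indicator_of_notMem (show s ∉ {s | x₁ ≤ Z s 1} from h)]
        show pot x₀ (if x₁ ≤ Z s 1 then Z s 1 + 1 else 0) ≤ _
        rw [if_neg h]
        simp [pot]
    | succ k ih =>
      refine le_trans ?_ ih
      have h2 := markov (k + 1) (fun s => K x₀ x₁ s k) (fun n u => pot x₀ (nx x₀ n u))
        (K_meas x₀ x₁ k) (fun s s' h => K_congr x₀ x₁ k s s' h)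
        (fun n => hpm.comp (nx_meas x₀ n))
      calc ∫⁻ s, pot x₀ (K x₀ x₁ s (k + 1)) ∂(RR)
          = ∫⁻ s, pot x₀ (nx x₀ (K x₀ x₁ s k) (s (k + 1))) ∂(RR) := rfl
        _ = ∫⁻ s, ∫⁻ u, pot x₀ (nx x₀ (K x₀ x₁ s k) u) ∂SS ∂(RR) := h2
        _ ≤ ∫⁻ s, pot x₀ (K x₀ x₁ s k) ∂(RR) := lintegral_mono fun s => pot_nx x₀ h1 hk _
  -- the bad events
  let E : ℕ → Set (ℕ → ℕ → Bool) := fun k => {s | 1 ≤ K x₀ x₁ s k ∧ K x₀ x₁ s k ≤ x₀}
  have hEm : ∀ k, MeasurableSet (E k) := fun k =>
    (K_meas x₀ x₁ k) (t := {m | 1 ≤ m ∧ m ≤ x₀}) trivial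
  have hEmono : Monotone E := by
    refine monotone_nat_of_le_succ fun k s hs => ?_
    have h2 : K x₀ x₁ s (k + 1) = 1 := by
      show nx x₀ (K x₀ x₁ s k) (s (k + 1)) = 1
      unfold nx
      rw [if_neg (by have := hs.1; omega), if_pos hs.2]
    exact ⟨h2.ge, by rw [h2]; exact h1⟩
  have hEle : ∀ k, ENNReal.ofReal (V x₀) * RR (E k) ≤
      ENNReal.ofReal (V x₁) * RR {s | x₁ ≤ Z s 1} := by
    intro k
    refine le_trans ?_ (hdec k)
    rw [← lintegral_indicator_const (hEm k)]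
    refine lintegral_mono fun s => ?_
    by_cases h : s ∈ E k
    · rw [Set.indicator_of_mem h]
      unfold pot
      rw [if_neg (by have := h.1; omega), if_pos h.2]
    · rw [Set.indicator_of_notMem h]
      exact zero_le
  have hU : ENNReal.ofReal (V x₀) * RR (⋃ k, E k) ≤
      ENNReal.ofReal (V x₁) * RR {s | x₁ ≤ Z s 1} := by
    have h2 : Tendsto (fun k => RR (E k)) atTop (𝓝 (RR (⋃ k, E k))) :=
      tendsto_measure_iUnion_atTop hEmono
    have h3 : Tendsto (fun k => ENNReal.ofReal (V x₀) * RR (E k)) atTop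
        (𝓝 (ENNReal.ofReal (V x₀) * RR (⋃ k, E k))) :=
      ENNReal.Tendsto.const_mul h2 (Or.inr ENNReal.ofReal_ne_top)
    exact le_of_tendsto' h3 hEle
  have hSpos := start_pos x₁
  have hlt : RR (⋃ k, E k) < RR {s | x₁ ≤ Z s 1} := by
    by_contra hc
    push Not at hc
    have h2 : ENNReal.ofReal (V x₁) < ENNReal.ofReal (V x₀) :=
      (ENNReal.ofReal_lt_ofReal_iff (V_pos _)).2 (V_strict (by omega))
    have h3 : ENNReal.ofReal (V x₁) * RR {s | x₁ ≤ Z s 1} <
        ENNReal.ofReal (V x₀) * RR {s | x₁ ≤ Z s 1} :=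
      ENNReal.mul_lt_mul_left hSpos.ne' (measure_ne_top _ _) h2
    have h4 : ENNReal.ofReal (V x₀) * RR {s | x₁ ≤ Z s 1} ≤
        ENNReal.ofReal (V x₀) * RR (⋃ k, E k) := mul_le_mul_right hc _
    exact absurd (h4.trans hU) (not_le.2 h3)
  have hsub : {s | x₁ ≤ Z s 1} \ (⋃ k, E k) ⊆ {s : ℕ → ℕ → Bool | ∀ k, 1 ≤ Z s k} := by
    rintro s ⟨hs1, hs2⟩
    have hs1' : x₁ ≤ Z s 1 := hs1
    have hne : ∀ k, s ∉ E k := fun k h => hs2 (Set.mem_iUnion.2 ⟨k, h⟩)
    have hall : ∀ k, K x₀ x₁ s k = Z s (k + 1) + 1 := by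
      intro k
      induction k with
      | zero =>
        show (if x₁ ≤ Z s 1 then Z s 1 + 1 else 0) = _
        rw [if_pos hs1']
      | succ k ih =>
        have hnk := hne k
        have hnk1 := hne (k + 1)
        have e : K x₀ x₁ s (k + 1) = nx x₀ (K x₀ x₁ s k) (s (k + 1)) := rfl
        have h2 : ¬ K x₀ x₁ s k ≤ x₀ := fun h => hnk ⟨by omega, h⟩
        have h3 : nx x₀ (K x₀ x₁ s k) (s (k + 1)) =
            if x₀ ≤ U (K x₀ x₁ s k - 1) (s (k + 1)) then
              U (K x₀ x₁ s k - 1) (s (k + 1)) + 1 else 1 := by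
          unfold nx
          rw [if_neg (by omega), if_neg h2]
        rw [e, h3]
        split_ifs with h4
        · rw [ih, Nat.add_sub_cancel]
          rfl
        · exfalso
          apply hnk1
          rw [if_neg h4] at h3
          have h5 : K x₀ x₁ s (k + 1) = 1 := by rw [e, h3]
          exact ⟨h5.ge, by rw [h5]; exact h1⟩
    intro k
    rcases k with _ | k
    · exact le_rfl
    · have h2 := hall k
      have h3 : ¬ K x₀ x₁ s k ≤ x₀ := fun h => hne k ⟨by omega, h⟩
      omega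
  refine lt_of_lt_of_le ?_ (measure_mono hsub)
  have h5 := tsub_pos_of_lt hlt
  exact lt_of_lt_of_le h5 (le_measure_sdiff)

end Pool.Agent.U430.ER
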