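import Pool.Agent.U430.ER.Inf
import Pool.Agent.N276.ER.Mom2
import Pool.Agent.N276.ER.Wald
import Pool.Agent.N276.ER.Meas

/-!
# The tail of `U x - x`, the moments, the mean of the chain to the left
-/

set_option autoImplicit false

open MeasureTheory ProbabilityTheory Filter Topology Set
open scoped ENNReal

namespace Pool.Agent.U430.ER

open Pool.Agent.N276.ER

theorem sum_pp (n : ℕ) : ∑ i ∈ Finset.range n, pp i = n / 2 + A n := by
  induction n with
  | zero =>
    rw [Finset.sum_range_zero, env.1]
    simp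
  | succ n ih =>
    rw [Finset.sum_range_succ, ih]
    unfold pp
    push_cast
    ring

theorem sum_fail (s : ℕ → Bool) (n : ℕ) :
    ∑ i ∈ Finset.range n, (if s i = true then (0 : ℝ) else 1) = fails s n := by
  have h := Pool.Agent.N276.BE.QTailAux.sum_succ s n
  have h2 : ∑ i ∈ Finset.range n, ((if s i = true then (1 : ℝ) else 0) +
      (if s i = true then (0 : ℝ) else 1)) = n := by
    rw [Finset.sum_congr rfl (g := fun _ => (1 : ℝ))]
    · simp
    · intro i _
      split_ifs <;> norm_num
  rw [Finset.sum_add_distrib, h] at h2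
  linarith

theorem up_dev {s : ℕ → Bool} (hs : Good s) {x t : ℕ} (h : x + t ≤ U x s) :
    fails s (2 * x + t) ≤ x := by
  have h1 := Mom2Aux.fails_T hs x
  have h2 : 2 * x + t ≤ T x s := by
    unfold U at h
    omega
  have := Mom2Aux.fails_mono s h2
  omega

theorem down_dev {s : ℕ → Bool} (hs : Good s) {x t : ℕ} (h : U x s + t ≤ x) :
    x ≤ fails s (2 * x - t) := by
  have h1 := Mom2Aux.fails_T hs x
  have h0 := Mom2Aux.fails_le s (T x s)
  have h2 : T x s ≤ 2 * x - t := by
    unfold U at h
    omega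
  have := Mom2Aux.fails_mono s h2
  omega

theorem tail : StmTail := by
  intro x t ht
  have hSS := prob.2.1
  have hp := env.2.2.2.2.2
  have hp' : ∀ i, 0 ≤ pp i ∧ pp i ≤ 1 := fun i => by
    have := hp i
    constructor <;> linarith [this.1, this.2]
  rcases Nat.lt_or_ge t 4 with h4 | h4
  · have hle1 : SS.real {s | (t : ℝ) ≤ |(U x s : ℝ) - x|} ≤ 1 := measureReal_le_one
    refine hle1.trans ?_
    · have ht0 : (2 : ℝ) ≤ t := by exact_mod_cast ht
      have ht3 : (t : ℝ) ≤ 3 := by exact_mod_cast (by omega : t ≤ 3)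
      have hx0 : (0 : ℝ) ≤ x := Nat.cast_nonneg x
      have h1 : -(1 / 2 : ℝ) ≤ -(t : ℝ) ^ 2 / (8 * (2 * x + t)) := by
        rw [neg_div, neg_le_neg_iff, div_le_iff₀ (by positivity)]
        nlinarith
      have h2 := Real.add_one_le_exp (-(t : ℝ) ^ 2 / (8 * (2 * x + t)))
      linarith
  have ht4 : (4 : ℝ) ≤ t := by exact_mod_cast h4
  have hx0 : (0 : ℝ) ≤ x := Nat.cast_nonneg x
  -- the two events
  have hA := Pool.Agent.N276.BE.QTailAux.hoef hp' (fun b => if b = true then (1 : ℝ) else 0) 0
    (by intro b; cases b <;> simp) (2 * x + t) (u := (t : ℝ) / 4) (by positivity)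
  have hB := Pool.Agent.N276.BE.QTailAux.hoef hp' (fun b => if b = true then (0 : ℝ) else 1) 0
    (by intro b; cases b <;> simp) (2 * x - t) (u := (t : ℝ) / 4) (by positivity)
  set EA : Set (ℕ → Bool) := {s | (t : ℝ) / 4 ≤ ∑ i ∈ Finset.range (2 * x + t),
    ((if s i = true then (1 : ℝ) else 0) - (pp i * (if true = true then (1 : ℝ) else 0) +
      (1 - pp i) * (if false = true then (1 : ℝ) else 0)))} with hEA
  set EB : Set (ℕ → Bool) := {s | (t : ℝ) / 4 ≤ ∑ i ∈ Finset.range (2 * x - t),
    ((if s i = true then (0 : ℝ) else 1) - (pp i * (if true = true then (0 : ℝ) else 1) +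
      (1 - pp i) * (if false = true then (0 : ℝ) else 1)))} with hEB
  have hincl : ∀ᵐ s ∂SS, s ∈ {s : ℕ → Bool | (t : ℝ) ≤ |(U x s : ℝ) - x|} → s ∈
      EA ∪ (if t ≤ x then EB else ∅) := by
    filter_upwards [inf] with s hs hs2
    rcases le_abs.1 (show (t : ℝ) ≤ |(U x s : ℝ) - x| from hs2) with h | h
    · left
      have h1 : x + t ≤ U x s := by
        have : ((x + t : ℕ) : ℝ) ≤ U x s := by push_cast; linarith
        exact_mod_cast this
      have h2 := up_dev hs h1
      show (t : ℝ) / 4 ≤ _
      simp only [if_true, Bool.false_eq_true, if_false, mul_one, mul_zero, add_zero]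
      rw [Finset.sum_sub_distrib, Pool.Agent.N276.BE.QTailAux.sum_succ, sum_pp]
      have h3 : (fails s (2 * x + t) : ℝ) ≤ x := by exact_mod_cast h2
      have h5 := (env.2.1 (2 * x + t)).2
      push_cast
      linarith
    · right
      have h1 : U x s + t ≤ x := by
        have : ((U x s + t : ℕ) : ℝ) ≤ x := by push_cast; linarith
        exact_mod_cast this
      rw [if_pos (by omega)]
      have h2 := down_dev hs h1
      show (t : ℝ) / 4 ≤ _
      simp only [if_true, Bool.false_eq_true, if_false, mul_one, mul_zero, zero_add]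
      rw [Finset.sum_sub_distrib, sum_fail, Finset.sum_sub_distrib, sum_pp]
      have h3 : (x : ℝ) ≤ fails s (2 * x - t) := by exact_mod_cast h2
      have h5 := (env.2.1 (2 * x - t)).1
      have h6 : ((2 * x - t : ℕ) : ℝ) = 2 * x - t := by
        rw [Nat.cast_sub (by omega)]
        push_cast
        ring
      simp only [Finset.sum_const, Finset.card_range, nsmul_eq_mul, mul_one]
      rw [h6] at *
      linarith
  have h1 : SS.real {s | (t : ℝ) ≤ |(U x s : ℝ) - x|} ≤
      SS.real (EA ∪ (if t ≤ x then EB else ∅)) := by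
    unfold Measure.real
    exact ENNReal.toReal_mono (measure_ne_top _ _) (measure_mono_ae hincl)
  refine h1.trans ((measureReal_union_le _ _).trans ?_)
  have h2 : SS.real EA ≤ Real.exp (-(t : ℝ) ^ 2 / (8 * (2 * x + t))) := by
    refine hA.trans (le_of_eq ?_)
    congr 1
    push_cast
    field_simp
    ring
  have h3 : SS.real (if t ≤ x then EB else ∅) ≤ Real.exp (-(t : ℝ) ^ 2 / (8 * (2 * x + t))) := by
    split_ifs with htx
    · refine hB.trans ?_
      rw [Real.exp_le_exp]
      have h6 : ((2 * x - t : ℕ) : ℝ) = 2 * x - t := by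
        rw [Nat.cast_sub (by omega)]
        push_cast
        ring
      have htx' : (t : ℝ) ≤ x := by exact_mod_cast htx
      rw [h6, neg_div, neg_div, neg_le_neg_iff, div_le_div_iff₀ (by positivity) (by nlinarith)]
      nlinarith [sq_nonneg (t : ℝ), mul_nonneg (sq_nonneg (t : ℝ)) hx0,
        mul_nonneg (sq_nonneg (t : ℝ)) (by linarith : (0 : ℝ) ≤ t)]
    · simp only [measureReal_empty]
      exact (Real.exp_pos _).le
  linarith

theorem wald' : StmWald := wald prob

theorem mom2' : StmMom2 := mom2 prob env inf wald' tail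

end Pool.Agent.U430.ER
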